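import Pool.Agent.Helper65_UNF.Act
import Pool.Agent.Helper69_Art.Free

set_option autoImplicit false

/-!
# Products of maximal parabolic subgroups are closed in affine type A (squad UNF, module AFA)
-/

namespace Unf.H65

open Art

/-! ### Residual finiteness of the free group of countable rank -/

/-- Forget the generators with index at least `m`. -/
def cut (m : ℕ) : F →* FreeGroup (Fin m) :=
  FreeGroup.lift (fun j => if h : j < m then FreeGroup.of ⟨j, h⟩ else 1)

/-- The inclusion. -/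
def incF (m : ℕ) : FreeGroup (Fin m) →* F := FreeGroup.lift (fun j => x j.1)

lemma cut_inc (g : F) : ∃ M, ∀ m, M ≤ m → incF m (cut m g) = g := by
  induction g using FreeGroup.induction_on with
  | C1 => exact ⟨0, fun m _ => by rw [map_one, map_one]⟩
  | of j =>
    refine ⟨j + 1, fun m hm => ?_⟩
    unfold cut incF
    rw [FreeGroup.lift_apply_of, dif_pos (show j < m by omega), FreeGroup.lift_apply_of]
  | inv_of j ih =>
    obtain ⟨M, hM⟩ := ih
    exact ⟨M, fun m hm => by rw [map_inv, map_inv, hM m hm]⟩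
  | mul a b iha ihb =>
    obtain ⟨A, hA⟩ := iha
    obtain ⟨B, hB⟩ := ihb
    exact ⟨max A B, fun m hm => by
      rw [map_mul, map_mul, hA m (le_trans (le_max_left _ _) hm),
        hB m (le_trans (le_max_right _ _) hm)]⟩

lemma rf_F {g : F} (hg : g ≠ 1) : ∃ (Q : Type) (_ : Group Q) (_ : Finite Q) (π : F →* Q),
    π g ≠ 1 := by
  obtain ⟨m, hm⟩ := cut_inc g
  have h1 : cut m g ≠ 1 := by
    intro h
    apply hg
    rw [← hm m le_rfl, h, map_one]
  have hrf : RF (FreeGroup (Fin m)) := H69.free m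
  obtain ⟨H, hH⟩ := Group.exists_finiteIndexNormalSubgroup_notMem (cut m g) h1
  refine ⟨FreeGroup (Fin m) ⧸ H.toSubgroup, inferInstance, inferInstance,
    (QuotientGroup.mk' H.toSubgroup).comp (cut m), ?_⟩
  rw [MonoidHom.comp_apply]
  intro h
  exact hH ((QuotientGroup.eq_one_iff _).1 h)

/-- Finite index from a map to a finite set. -/
lemma fi_of_map {G : Type} [Group G] (S : Subgroup G) {X : Type} [Finite X] (θ : G → X)
    (h : ∀ a b, θ a = θ b → a * b⁻¹ ∈ S) : S.FiniteIndex := by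
  have hinj : Function.Injective (fun q : G ⧸ S => θ (q.out)⁻¹) := by
    intro q q' hq
    have h1 := h _ _ hq
    rw [inv_inv] at h1
    have h2 : (q.out : G ⧸ S) = (q'.out : G ⧸ S) := QuotientGroup.eq.2 h1
    rwa [QuotientGroup.out_eq', QuotientGroup.out_eq'] at h2
  have : Finite (G ⧸ S) := Finite.of_injective _ hinj
  exact Subgroup.finiteIndex_of_finite_quotient

section data

variable {n : ℕ} {Ξ : E n →* MulAut F} {Λ : E n →* Hol} (d : Data n Ξ Λ) (hn : 3 ≤ n)

include d hn

lemma fix_large (z : E n) : (∀ j, n < j → Ξ z (x j) = x j) ∧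
    ∀ j, n ≤ j → (Λ z).right (x j) = x j := by
  let K : Subgroup (E n) :=
    { carrier := {z | (∀ j, n < j → Ξ z (x j) = x j) ∧ ∀ j, n ≤ j → (Λ z).right (x j) = x j}
      mul_mem' := fun {a b} ha hb => by
        refine ⟨fun j hj => ?_, fun j hj => ?_⟩
        · rw [map_mul, MulAut.mul_apply, hb.1 j hj, ha.1 j hj]
        · rw [right_mul, MulAut.mul_apply, hb.2 j hj, ha.2 j hj]
      one_mem' := by
        refine ⟨fun j _ => ?_, fun j _ => ?_⟩
        · rw [map_one]; rfl
        · rw [map_one]; rfl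
      inv_mem' := fun {a} ha => by
        refine ⟨fun j hj => ?_, fun j hj => ?_⟩
        · conv_lhs => rw [← ha.1 j hj]
          rw [map_inv, ← MulAut.mul_apply, inv_mul_cancel, MulAut.one_apply]
        · have hr : (Λ a⁻¹).right = ((Λ a).right)⁻¹ := by rw [map_inv]; rfl
          conv_lhs => rw [← ha.2 j hj]
          rw [hr, ← MulAut.mul_apply, inv_mul_cancel, MulAut.one_apply] }
  refine E_gen hn K ?_ ?_ z
  · intro i hi
    refine ⟨fun j hj => ?_, fun j hj => ?_⟩
    · rw [d.us i hi]; exact sg_ne (by omega) (by omega)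
    · rw [d.ls i hi]; exact sg_ne (by omega) (by omega)
  · refine ⟨fun j hj => ?_, fun j hj => ?_⟩
    · rw [d.ut, pow_two, MulAut.mul_apply, sg_ne (by omega) (by omega),
        sg_ne (by omega) (by omega)]
    · rw [d.lt]; rfl

/-- The subgroup which acts trivially modulo the kernel of `π`. -/
lemma stab {Q : Type} [Group Q] [Finite Q] (π : F →* Q) : ∃ S : Subgroup (E n), S.FiniteIndex ∧
    ∀ g ∈ S, (∀ w, π (Ξ g w) = π w) ∧ (∀ w, π (io ((Λ g).right w)) = π (io w)) ∧
      π (io (Λ g).left) = 1 := by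
  let S : Subgroup (E n) :=
    { carrier := {g | (∀ w, π (Ξ g w) = π w) ∧ (∀ w, π (io ((Λ g).right w)) = π (io w)) ∧
        π (io (Λ g).left) = 1}
      mul_mem' := fun {a b} ha hb => by
        obtain ⟨a1, a2, a3⟩ := ha
        obtain ⟨b1, b2, b3⟩ := hb
        refine ⟨fun w => ?_, fun w => ?_, ?_⟩
        · rw [map_mul, MulAut.mul_apply, a1, b1]
        · rw [right_mul, MulAut.mul_apply, a2, b2]
        · rw [left_mul, map_mul, map_mul, a3, a2, b3, one_mul]
      one_mem' := by
        refine ⟨fun w => ?_, fun w => ?_, ?_⟩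
        · rw [map_one]; rfl
        · rw [map_one]; rfl
        · rw [map_one]; show π (io 1) = 1; rw [map_one, map_one]
      inv_mem' := fun {a} ha => by
        obtain ⟨a1, a2, a3⟩ := ha
        have hr : (Λ a⁻¹).right = ((Λ a).right)⁻¹ := by rw [map_inv]; rfl
        have e2 : ∀ w, π (io (((Λ a).right)⁻¹ w)) = π (io w) := by
          intro w
          have := a2 (((Λ a).right)⁻¹ w)
          rw [← MulAut.mul_apply, mul_inv_cancel, MulAut.one_apply] at this
          exact this.symm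
        refine ⟨fun w => ?_, fun w => ?_, ?_⟩
        · have := a1 ((Ξ a)⁻¹ w)
          rw [← MulAut.mul_apply, mul_inv_cancel, MulAut.one_apply] at this
          rw [map_inv]
          exact this.symm
        · rw [hr]; exact e2 w
        · rw [left_inv, hr, e2, map_inv, map_inv, a3, inv_one] }
  refine ⟨S, ?_, fun g hg => hg⟩
  refine fi_of_map S (X := (Fin (n + 1) → Q) × (Fin n → Q) × Q)
    (fun a => (fun j => π (Ξ a (x j.1)), fun j => π (io ((Λ a).right (x j.1))),
      π (io (Λ a).left))) ?_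
  intro a b hab
  rw [Prod.mk.injEq, Prod.mk.injEq] at hab
  obtain ⟨h1, h2, h3⟩ := hab
  have e1 : ∀ w, π (Ξ a w) = π (Ξ b w) := by
    have : π.comp (Ξ a).toMonoidHom = π.comp (Ξ b).toMonoidHom := by
      apply FreeGroup.ext_hom
      intro j
      show π (Ξ a (x j)) = π (Ξ b (x j))
      by_cases hj : j < n + 1
      · exact congrFun h1 ⟨j, hj⟩
      · rw [(fix_large d hn a).1 j (by omega), (fix_large d hn b).1 j (by omega)]
    intro w
    exact congrArg (fun φ : F →* Q => φ w) this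
  have e2 : ∀ w, π (io ((Λ a).right w)) = π (io ((Λ b).right w)) := by
    have : (π.comp io).comp (Λ a).right.toMonoidHom = (π.comp io).comp (Λ b).right.toMonoidHom := by
      apply FreeGroup.ext_hom
      intro j
      show π (io ((Λ a).right (x j))) = π (io ((Λ b).right (x j)))
      by_cases hj : j < n
      · exact congrFun h2 ⟨j, hj⟩
      · rw [(fix_large d hn a).2 j (by omega), (fix_large d hn b).2 j (by omega)]
    intro w
    exact congrArg (fun φ : F →* Q => φ w) this
  have hr : (Λ b⁻¹).right = ((Λ b).right)⁻¹ := by rw [map_inv]; rfl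
  refine ⟨fun w => ?_, fun w => ?_, ?_⟩
  · rw [map_mul, MulAut.mul_apply, e1, map_inv, ← MulAut.mul_apply, mul_inv_cancel,
      MulAut.one_apply]
  · rw [right_mul, MulAut.mul_apply, e2, hr, ← MulAut.mul_apply, mul_inv_cancel, MulAut.one_apply]
  · rw [left_mul, map_mul, map_mul, e2, left_inv, hr, ← MulAut.mul_apply, mul_inv_cancel,
      MulAut.one_apply, map_inv, map_inv]
    have h3' : π (io (Λ a).left) = π (io (Λ b).left) := h3
    rw [h3', mul_inv_cancel]

/-- Separation. -/
theorem sep (k : ℕ) (z : E n)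
    (hz : ¬ (Dc Ξ Λ z ∧ ex (Λ z).left = Multiplicative.ofAdd (k : ℤ))) :
    ∃ N : Subgroup (E n), N.Normal ∧ N.FiniteIndex ∧ ∀ g ∈ N,
      ¬ (Dc Ξ Λ (g * z) ∧ ex (Λ (g * z)).left = Multiplicative.ofAdd (k : ℤ)) := by
  by_cases he : ex (Λ z).left = Multiplicative.ofAdd (k : ℤ)
  · -- the action
    have hD : ¬ Dc Ξ Λ z := fun h => hz ⟨h, he⟩
    unfold Dc at hD
    obtain ⟨Q, _, _, π, hπ⟩ := rf_F (g := Ξ z (x 0) * ((io (Λ z).left)⁻¹ * x 0 * io (Λ z).left)⁻¹)
      (fun h => hD (mul_inv_eq_one.1 h))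
    obtain ⟨S, hS, hS2⟩ := stab d hn π
    refine ⟨S.normalCore, inferInstance, inferInstance, ?_⟩
    rintro g hg ⟨h1, -⟩
    obtain ⟨g1, g2, g3⟩ := hS2 g (S.normalCore_le hg)
    apply hπ
    unfold Dc at h1
    have h2 := congrArg π h1
    rw [map_mul, MulAut.mul_apply, g1, left_mul] at h2
    simp only [map_mul, map_inv] at h2 ⊢
    rw [g3, g2, one_mul] at h2
    rw [h2]
    group
  · -- the exponent sum
    let ε : E n →* Multiplicative ℤ :=
      { toFun := fun z => ex (Λ z).left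
        map_one' := by rw [map_one]; exact map_one _
        map_mul' := fun a b => by rw [left_mul, map_mul, ex_right d hn] }
    set a : ℤ := (ex (Λ z).left).toAdd - k with ha
    have ha0 : a ≠ 0 := by
      intro h
      apply he
      rw [← ofAdd_toAdd (ex (Λ z).left)]
      congr 1
      omega
    let q : Multiplicative ℤ →* Multiplicative (ZMod (a.natAbs + 1)) :=
      AddMonoidHom.toMultiplicative (Int.castAddHom (ZMod (a.natAbs + 1)))
    have hfin : Finite (Multiplicative (ZMod (a.natAbs + 1))) :=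
      inferInstanceAs (Finite (ZMod (a.natAbs + 1)))
    refine ⟨(q.comp ε).ker, inferInstance, inferInstance, ?_⟩
    rintro g hg ⟨-, h1⟩
    rw [MonoidHom.mem_ker] at hg
    have h2 : (((ex (Λ g).left).toAdd : ℤ) : ZMod (a.natAbs + 1)) = 0 := hg
    rw [ZMod.intCast_zmod_eq_zero_iff_dvd] at h2
    rw [left_mul, map_mul, ex_right d hn] at h1
    have h3 := congrArg Multiplicative.toAdd h1
    rw [toAdd_mul, toAdd_ofAdd] at h3
    have h4 : (((a.natAbs + 1 : ℕ) : ℤ)) ∣ a := by
      have h6 : a = -(ex (Λ g).left).toAdd := by omega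
      obtain ⟨c, hc⟩ := h2
      exact ⟨-c, by rw [mul_neg, ← hc]; exact h6⟩
    have h5 := Int.le_of_dvd (a := ((a.natAbs + 1 : ℕ) : ℤ)) (b := |a|) (abs_pos.2 ha0)
      ((dvd_abs _ _).2 h4)
    rw [Int.abs_eq_natAbs] at h5
    push_cast at h5
    omega

end data

/-! ### The parabolic subgroups -/

lemma R_pow_gen (n : ℕ) (m : ℕ) (i : ZMod n) :
    RE n ^ m * SemidirectProduct.inl (gen (At n) i) * (RE n ^ m)⁻¹ =
      SemidirectProduct.inl (gen (At n) (i + (m : ZMod n))) := by
  have h1 : RE n ^ m = SemidirectProduct.inr (Multiplicative.ofAdd (m : ℤ)) := by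
    unfold RE
    rw [← map_pow]
    congr 1
    rw [← ofAdd_nsmul]; simp
  rw [h1, inr_gen, toAdd_ofAdd]
  have : ((m : ℤ) : ZMod n) = (m : ZMod n) := by simp
  rw [this]
  group

lemma P_up {n : ℕ} (hn : 3 ≤ n) (j : ℕ) {g : Gp (At n)}
    (hg : g ∈ P (At n) {z | z ≠ (j : ZMod n) - 1}) :
    (RE n ^ j)⁻¹ * SemidirectProduct.inl g * RE n ^ j ∈ Ph n := by
  have : NeZero n := ⟨by omega⟩
  unfold P at hg
  induction hg using Subgroup.closure_induction with
  | mem g hg =>
    obtain ⟨z, hz, rfl⟩ := hg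
    have hz' : z ≠ (j : ZMod n) - 1 := hz
    have h1 := R_pow_gen n j (z - (j : ZMod n))
    rw [sub_add_cancel] at h1
    rw [← h1]
    have h2 : (RE n ^ j)⁻¹ * (RE n ^ j * SemidirectProduct.inl (gen (At n) (z - (j : ZMod n))) *
        (RE n ^ j)⁻¹) * RE n ^ j = SemidirectProduct.inl (gen (At n) (z - (j : ZMod n))) := by group
    rw [h2]
    have h3 : SemidirectProduct.inl (gen (At n) (z - (j : ZMod n))) =
        sE n (z - (j : ZMod n)).val := by
      unfold sE; rw [ZMod.natCast_zmod_val]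
    rw [h3]
    refine s_mem ?_
    have h4 := ZMod.val_lt (z - (j : ZMod n))
    by_contra h5
    have h6 : (z - (j : ZMod n)).val + 1 = n := by omega
    apply hz'
    have h7 : z - (j : ZMod n) + 1 = 0 := by
      have h8 : z - (j : ZMod n) + 1 = (((z - (j : ZMod n)).val + 1 : ℕ) : ZMod n) := by
        push_cast
        rw [ZMod.natCast_zmod_val]
      rw [h8, h6, ZMod.natCast_self]
    have h9 : z = (j : ZMod n) - 1 + (z - (j : ZMod n) + 1) := by ring
    rw [h9, h7, add_zero]
  | one => rw [map_one]; simp [Subgroup.one_mem]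
  | mul a b _ _ iha ihb =>
    rw [map_mul]
    have : (RE n ^ j)⁻¹ * (SemidirectProduct.inl a * SemidirectProduct.inl b) * RE n ^ j =
        ((RE n ^ j)⁻¹ * SemidirectProduct.inl a * RE n ^ j) *
          ((RE n ^ j)⁻¹ * SemidirectProduct.inl b * RE n ^ j) := by group
    rw [this]
    exact Subgroup.mul_mem _ iha ihb
  | inv a _ iha =>
    rw [map_inv]
    have : (RE n ^ j)⁻¹ * (SemidirectProduct.inl a)⁻¹ * RE n ^ j =
        ((RE n ^ j)⁻¹ * SemidirectProduct.inl a * RE n ^ j)⁻¹ := by group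
    rw [this]
    exact Subgroup.inv_mem _ iha

lemma P_down {n : ℕ} (hn : 3 ≤ n) (j : ℕ) {p : E n} (hp : p ∈ Ph n) :
    ∃ g ∈ P (At n) {z | z ≠ (j : ZMod n) - 1},
      SemidirectProduct.inl g = RE n ^ j * p * (RE n ^ j)⁻¹ := by
  unfold Ph at hp
  induction hp using Subgroup.closure_induction with
  | mem p hp =>
    obtain ⟨i, hi, rfl⟩ := hp
    refine ⟨gen (At n) ((i : ZMod n) + (j : ZMod n)), Subgroup.subset_closure ⟨_, ?_, rfl⟩, ?_⟩
    · show (i : ZMod n) + (j : ZMod n) ≠ (j : ZMod n) - 1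
      intro h
      have h1 : ((i + 1 : ℕ) : ZMod n) = ((0 : ℕ) : ZMod n) := by
        push_cast
        have h2 : (i : ZMod n) + 1 = ((i : ZMod n) + (j : ZMod n)) - ((j : ZMod n) - 1) := by ring
        rw [h2, h, sub_self]
      exact cast_ne (by omega) (by omega) (by omega) h1
    · unfold sE
      rw [R_pow_gen]
  | one => exact ⟨1, Subgroup.one_mem _, by rw [map_one]; group⟩
  | mul a b _ _ iha ihb =>
    obtain ⟨g, hg, hg2⟩ := iha
    obtain ⟨h, hh, hh2⟩ := ihb
    exact ⟨g * h, Subgroup.mul_mem _ hg hh, by rw [map_mul, hg2, hh2]; group⟩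
  | inv a _ iha =>
    obtain ⟨g, hg, hg2⟩ := iha
    exact ⟨g⁻¹, Subgroup.inv_mem _ hg, by rw [map_inv, hg2]; group⟩

/-- AFA: in the Artin group of affine type A the products of two maximal standard parabolic
subgroups are closed in the profinite topology. -/
theorem affA (n : ℕ) (hn : 3 ≤ n) (a b : ZMod n) :
    ClosedMul (P (At n) {z | z ≠ a}) (P (At n) {z | z ≠ b}) := by
  have : NeZero n := ⟨by omega⟩
  obtain ⟨Ξ, Λ, d⟩ := exists_data hn
  -- indices
  obtain ⟨j, hj⟩ : ∃ j : ℕ, j = a.val + 1 := ⟨_, rfl⟩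
  obtain ⟨e, he⟩ : ∃ e : ℕ, e = (b - a).val := ⟨_, rfl⟩
  have he' : e ≤ n := by rw [he]; exact (ZMod.val_lt (b - a)).le
  have hja : (j : ZMod n) - 1 = a := by
    rw [hj]; push_cast; rw [ZMod.natCast_zmod_val]; ring
  have hjb : ((j + e : ℕ) : ZMod n) - 1 = b := by
    push_cast
    rw [he, ZMod.natCast_zmod_val]
    have : (j : ZMod n) + (b - a) - 1 = ((j : ZMod n) - 1) + (b - a) := by ring
    rw [this, hja]; ring
  intro z hz
  set z' : E n := (RE n ^ j)⁻¹ * SemidirectProduct.inl z * RE n ^ (j + e) with hz'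
  have hno : ¬ (Dc Ξ Λ z' ∧ ex (Λ z').left = Multiplicative.ofAdd (e : ℤ)) := by
    rw [← double_coset d hn he' z']
    rintro ⟨p, hp, q, hq, hpq⟩
    obtain ⟨u, hu, hu2⟩ := P_down hn j hp
    obtain ⟨v, hv, hv2⟩ := P_down hn (j + e) hq
    rw [hja] at hu
    rw [hjb] at hv
    apply hz u hu v hv
    apply SemidirectProduct.inl_injective (φ := rz n)
    rw [map_mul, hu2, hv2]
    have h1 : (SemidirectProduct.inl z : E n) = RE n ^ j * z' * (RE n ^ (j + e))⁻¹ := by
      rw [hz']; group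
    rw [h1, hpq, pow_add]
    group
  obtain ⟨N, hN1, hN2, hN3⟩ := sep d hn e z' hno
  have hfi : (N.comap (SemidirectProduct.inl (φ := rz n))).FiniteIndex :=
    ⟨by
      rw [Subgroup.index_comap]
      exact (Subgroup.instFiniteIndex_subgroupOf N (SemidirectProduct.inl (φ := rz n)).range).index_ne_zero⟩
  refine ⟨N.comap SemidirectProduct.inl, hN1.comap _, hfi, ?_⟩
  intro u hu v hv m hm hzz
  rw [← hja] at hu
  rw [← hjb] at hv
  have hp := P_up hn j hu
  have hq := P_up hn (j + e) hv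
  set p := (RE n ^ j)⁻¹ * SemidirectProduct.inl u * RE n ^ j with hpd
  set q := (RE n ^ (j + e))⁻¹ * SemidirectProduct.inl v * RE n ^ (j + e) with hqd
  set m' : E n := (RE n ^ (j + e))⁻¹ * SemidirectProduct.inl m * RE n ^ (j + e) with hmd
  have hm' : m' ∈ N := by
    have hm2 : (SemidirectProduct.inl m : E n) ∈ N := hm
    have := hN1.conj_mem _ hm2 (RE n ^ (j + e))⁻¹
    rwa [inv_inv] at this
  have h1 : z' = p * RE n ^ e * q * m' := by
    rw [hz', hzz, hpd, hqd, hmd, map_mul, map_mul, pow_add]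
    group
  have h2 : z' * m'⁻¹ * z'⁻¹ ∈ N := hN1.conj_mem _ (Subgroup.inv_mem _ hm') z'
  apply hN3 _ h2
  rw [← double_coset d hn he']
  refine ⟨p, hp, q, hq, ?_⟩
  rw [h1]
  group

end Unf.H65
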