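import Pool.Agent.Helper65_UNF.Aff

set_option autoImplicit false

/-!
# The actions of the extended affine group, and the double cosets of the maximal parabolic
subgroup (squad UNF, module AFA)
-/

namespace Unf.H65

open Art

/-! ### Relations between the Artin automorphisms -/

lemma ma_ext {α β : MulAut F} (h : ∀ j, α (x j) = β (x j)) : α = β := by
  have h1 : α.toMonoidHom = β.toMonoidHom := FreeGroup.ext_hom _ _ h
  ext g
  exact congrArg (fun φ : F →* F => φ g) h1

lemma sg_self (i : ℕ) : sg i (x i) = x (i + 1) := by rw [sg_x, fw_self]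
lemma sg_succ (i : ℕ) : sg i (x (i + 1)) = (x (i + 1))⁻¹ * x i * x (i + 1) := by
  rw [sg_x, fw_succ]
lemma sg_ne {i j : ℕ} (h1 : j ≠ i) (h2 : j ≠ i + 1) : sg i (x j) = x j := by
  rw [sg_x, fw_ne h1 h2]
lemma sgi_self (i : ℕ) : (sg i)⁻¹ (x i) = x i * x (i + 1) * (x i)⁻¹ := by rw [sgi_x, bw_self]
lemma sgi_succ (i : ℕ) : (sg i)⁻¹ (x (i + 1)) = x i := by rw [sgi_x, bw_succ]
lemma sgi_ne {i j : ℕ} (h1 : j ≠ i) (h2 : j ≠ i + 1) : (sg i)⁻¹ (x j) = x j := by
  rw [sgi_x, bw_ne h1 h2]

lemma sg_braid (i : ℕ) : sg i * sg (i + 1) * sg i = sg (i + 1) * sg i * sg (i + 1) := by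
  have a1 : sg (i + 1) (x i) = x i := sg_ne (by omega) (by omega)
  have a2 : sg i (x (i + 1 + 1)) = x (i + 1 + 1) := sg_ne (by omega) (by omega)
  apply ma_ext
  intro j
  rw [MulAut.mul_apply, MulAut.mul_apply, MulAut.mul_apply, MulAut.mul_apply]
  by_cases h1 : j = i
  · subst h1
    simp only [sg_self, a1, a2]
  · by_cases h2 : j = i + 1
    · subst h2
      simp only [sg_succ, map_mul, map_inv, sg_self, a1, a2]
    · by_cases h3 : j = i + 1 + 1
      · subst h3
        simp only [sg_succ, map_mul, map_inv, sg_self, a1, a2]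
        group
      · have b1 : sg i (x j) = x j := sg_ne h1 h2
        have b2 : sg (i + 1) (x j) = x j := sg_ne h2 h3
        simp only [b1, b2]

lemma sg_comm {i j : ℕ} (hij : i + 2 ≤ j) : sg i * sg j = sg j * sg i := by
  have a1 : sg j (x i) = x i := sg_ne (by omega) (by omega)
  have a2 : sg j (x (i + 1)) = x (i + 1) := sg_ne (by omega) (by omega)
  have a3 : sg i (x j) = x j := sg_ne (by omega) (by omega)
  have a4 : sg i (x (j + 1)) = x (j + 1) := sg_ne (by omega) (by omega)
  apply ma_ext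
  intro k
  rw [MulAut.mul_apply, MulAut.mul_apply]
  by_cases h1 : k = i
  · subst h1; simp only [sg_self, a1, a2]
  · by_cases h2 : k = i + 1
    · subst h2; simp only [sg_succ, map_mul, map_inv, a1, a2]
    · by_cases h3 : k = j
      · subst h3; simp only [sg_self, a3, a4]
      · by_cases h4 : k = j + 1
        · subst h4; simp only [sg_succ, map_mul, map_inv, a3, a4]
        · have b1 : sg i (x k) = x k := sg_ne h1 h2
          have b2 : sg j (x k) = x k := sg_ne h3 h4
          simp only [b1, b2]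

lemma sg_C {j m : ℕ} (h : j + 1 < m) : sg j (C m) = C m := by
  have h0 : ∀ k ≤ j, sg j (C k) = C k := by
    intro k
    induction k with
    | zero => intro _; rw [C_zero, map_one]
    | succ k ih =>
      intro hk
      rw [C_succ, map_mul, ih (by omega), sg_ne (by omega) (by omega)]
  induction m, (show j + 2 ≤ m by omega) using Nat.le_induction with
  | base =>
    rw [C_succ, C_succ, map_mul, map_mul, h0 j le_rfl, sg_self, sg_succ]
    group
  | succ m hm ih =>
    rw [C_succ, map_mul, ih (by omega), sg_ne (by omega) (by omega)]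

lemma C_succ' (n : ℕ) : C (n + 1) = x 0 * io (C n) := by
  induction n with
  | zero => rw [C_succ, C_zero, map_one, one_mul, mul_one]
  | succ n ih =>
    calc C (n + 1 + 1) = C (n + 1) * x (n + 1) := C_succ _
      _ = x 0 * io (C n) * x (n + 1) := by rw [ih]
      _ = x 0 * io (C n * x n) := by rw [map_mul, io_x, mul_assoc]
      _ = _ := by rw [C_succ]

lemma sg_io (i : ℕ) (g : F) : sg (i + 1) (io g) = io (sg i g) := by
  have h : (sg (i + 1)).toMonoidHom.comp io = io.comp (sg i).toMonoidHom := by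
    apply FreeGroup.ext_hom
    intro j
    show sg (i + 1) (io (x j)) = io (sg i (x j))
    rw [io_x]
    by_cases h1 : j = i
    · subst h1; rw [sg_self, sg_self, io_x]
    · by_cases h2 : j = i + 1
      · subst h2; rw [sg_succ, sg_succ, map_mul, map_mul, map_inv, io_x, io_x]
      · rw [sg_ne h1 h2, sg_ne (by omega) (by omega), io_x]
  exact congrArg (fun φ : F →* F => φ g) h

lemma ex_sg (i : ℕ) (g : F) : ex (sg i g) = ex g := by
  have h : ex.comp (sg i).toMonoidHom = ex := by
    apply FreeGroup.ext_hom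
    intro j
    show ex (sg i (x j)) = ex (x j)
    by_cases h1 : j = i
    · subst h1; rw [sg_self, ex_x, ex_x]
    · by_cases h2 : j = i + 1
      · subst h2
        rw [sg_succ, map_mul, map_mul, map_inv, ex_x, ex_x]
        group
      · rw [sg_ne h1 h2]
  exact congrArg (fun φ : F →* Multiplicative ℤ => φ g) h

/-! ### The two targets -/

lemma braid_sq {G : Type} [Group G] {a b : G} (h : a * b * a = b * a * b) :
    a ^ 2 * b * a ^ 2 * b = b * a ^ 2 * b * a ^ 2 := by
  rw [pow_two]
  calc a * a * b * (a * a) * b = a * (a * b * a) * a * b := by group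
    _ = a * (b * a * b) * a * b := by rw [h]
    _ = (a * b * a) * (b * a * b) := by group
    _ = (b * a * b) * (a * b * a) := by rw [h]
    _ = b * a * (b * a * b) * a := by group
    _ = b * a * (a * b * a) * a := by rw [h]
    _ = _ := by group

/-- The action on the upper free group. -/
lemma BR_up (n : ℕ) : BR n (fun i => sg (i + 1)) ((sg 0) ^ 2) where
  br i _ := sg_braid (i + 1)
  cm i j hij _ := sg_comm (by omega)
  tc i h1 _ := by
    have h2 : sg 0 * sg (i + 1) = sg (i + 1) * sg 0 := sg_comm (by omega)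
    show sg 0 ^ 2 * sg (i + 1) = sg (i + 1) * sg 0 ^ 2
    rw [pow_two, mul_assoc, h2, ← mul_assoc, h2, mul_assoc]
  tb _ := by
    have h := sg_braid 0
    rw [zero_add] at h
    exact braid_sq h

/-- The holomorph of the free group. -/
abbrev Hol : Type := F ⋊[MonoidHom.id (MulAut F)] MulAut F

lemma inr_inl (α : MulAut F) (w : F) : (SemidirectProduct.inr α : Hol) * SemidirectProduct.inl w =
    SemidirectProduct.inl (α w) * SemidirectProduct.inr α := by
  have := SemidirectProduct.inl_aut (φ := MonoidHom.id (MulAut F)) α w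
  rw [MonoidHom.id_apply] at this
  rw [this, map_inv]; group

lemma BR_hol (n : ℕ) : BR n (G := Hol) (fun i => SemidirectProduct.inr (sg i))
    (SemidirectProduct.inl (x 0)) where
  br i _ := by
    show SemidirectProduct.inr (sg i) * SemidirectProduct.inr (sg (i + 1)) *
      SemidirectProduct.inr (sg i) = SemidirectProduct.inr (sg (i + 1)) *
      SemidirectProduct.inr (sg i) * SemidirectProduct.inr (sg (i + 1))
    rw [← map_mul, ← map_mul, ← map_mul, ← map_mul, sg_braid]
  cm i j hij _ := by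
    show SemidirectProduct.inr (sg i) * SemidirectProduct.inr (sg j) =
      SemidirectProduct.inr (sg j) * SemidirectProduct.inr (sg i)
    rw [← map_mul, ← map_mul, sg_comm hij]
  tc i h1 _ := by
    show SemidirectProduct.inl (x 0) * SemidirectProduct.inr (sg i) =
      SemidirectProduct.inr (sg i) * SemidirectProduct.inl (x 0)
    rw [inr_inl, sg_ne (by omega) (by omega)]
  tb _ := by
    show SemidirectProduct.inl (x 0) * SemidirectProduct.inr (sg 0) *
      SemidirectProduct.inl (x 0) * SemidirectProduct.inr (sg 0) =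
      SemidirectProduct.inr (sg 0) * SemidirectProduct.inl (x 0) *
      SemidirectProduct.inr (sg 0) * SemidirectProduct.inl (x 0)
    have a1 : sg 0 (x 0) = x 1 := sg_self 0
    have a2 : sg 0 (x 1) = (x 1)⁻¹ * x 0 * x 1 := sg_succ 0
    rw [mul_assoc (SemidirectProduct.inl (x 0)), inr_inl, a1,
      mul_assoc (SemidirectProduct.inl (x 1) * SemidirectProduct.inr (sg 0)), inr_inl, a1,
      ← mul_assoc (SemidirectProduct.inl (x 1) * SemidirectProduct.inr (sg 0)),
      mul_assoc (SemidirectProduct.inl (x 1)), inr_inl, a2, map_mul, map_mul, map_inv]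
    group

/-! ### The extended group -/

variable {n : ℕ}

/-- The maximal parabolic subgroup in the extended group. -/
noncomputable def Ph (n : ℕ) : Subgroup (E n) := Subgroup.closure {g | ∃ i, i + 1 < n ∧ g = sE n i}

lemma s_mem {i : ℕ} (hi : i + 1 < n) : sE n i ∈ Ph n := Subgroup.subset_closure ⟨i, hi, rfl⟩

/-- Generation. -/
lemma E_gen (hn : 3 ≤ n) (K : Subgroup (E n)) (h1 : ∀ i, i + 1 < n → sE n i ∈ K)
    (h2 : tE n ∈ K) (z : E n) : z ∈ K := by
  have hD : ∀ m, m + 1 ≤ n → Dp (sE n) m ∈ K := by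
    intro m
    induction m with
    | zero => intro _; exact K.one_mem
    | succ m ih => intro hm; exact K.mul_mem (ih (by omega)) (h1 m (by omega))
  have hR : RE n ∈ K := by
    rw [RE_eq]
    exact K.mul_mem h2 (hD _ (by omega))
  have hinr : ∀ m : ℤ, (SemidirectProduct.inr (Multiplicative.ofAdd m) : E n) ∈ K := by
    intro m
    have : (SemidirectProduct.inr (Multiplicative.ofAdd m) : E n) = RE n ^ m := by
      unfold RE
      rw [← map_zpow]
      congr 1
      rw [← ofAdd_zsmul]; simp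
    rw [this]
    exact K.zpow_mem hR m
  have hg : ∀ i : ZMod n, (SemidirectProduct.inl (gen (At n) i) : E n) ∈ K := by
    intro i
    have : NeZero n := ⟨by omega⟩
    have e := inr_gen n (Multiplicative.ofAdd (i.val : ℤ)) ((0 : ℕ) : ZMod n)
    have e2 : (SemidirectProduct.inl (gen (At n) i) : E n) =
        SemidirectProduct.inr (Multiplicative.ofAdd (i.val : ℤ)) * sE n 0 *
        (SemidirectProduct.inr (Multiplicative.ofAdd (i.val : ℤ)))⁻¹ := by
      unfold sE
      rw [e]
      simp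
    rw [e2]
    exact K.mul_mem (K.mul_mem (hinr _) (h1 0 (by omega))) (K.inv_mem (hinr _))
  have hinl : ∀ g : Gp (At n), (SemidirectProduct.inl g : E n) ∈ K := by
    intro g
    have h3 : Subgroup.closure (Set.range (gen (At n))) ≤ K.comap (SemidirectProduct.inl (φ := rz n)) := by
      rw [Subgroup.closure_le]
      rintro _ ⟨i, rfl⟩
      exact hg i
    have h4 : g ∈ Subgroup.closure (Set.range (gen (At n))) := by
      rw [closure_gen]; trivial
    exact h3 h4
  rw [← SemidirectProduct.inl_left_mul_inr_right z]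
  exact K.mul_mem (hinl _) (hinr _)

/-- The data: the action on the upper free group and the cocycle. -/
structure Data (n : ℕ) (Ξ : E n →* MulAut F) (Λ : E n →* Hol) : Prop where
  us : ∀ i, i + 1 < n → Ξ (sE n i) = sg (i + 1)
  ut : Ξ (tE n) = (sg 0) ^ 2
  ls : ∀ i, i + 1 < n → Λ (sE n i) = SemidirectProduct.inr (sg i)
  lt : Λ (tE n) = SemidirectProduct.inl (x 0)

theorem exists_data (hn : 3 ≤ n) : ∃ Ξ Λ, Data n Ξ Λ := by
  obtain ⟨Ξ, h1, h2⟩ := E_lift (BR_up n) hn
  obtain ⟨Λ, h3, h4⟩ := E_lift (BR_hol n) hn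
  exact ⟨Ξ, Λ, h1, h2, h3, h4⟩

section data

variable {Ξ : E n →* MulAut F} {Λ : E n →* Hol} (d : Data n Ξ Λ) (hn : 3 ≤ n)

lemma left_mul (Λ : E n →* Hol) (z z' : E n) :
    (Λ (z * z')).left = (Λ z).left * (Λ z).right (Λ z').left := by
  rw [map_mul]; rfl

lemma right_mul (Λ : E n →* Hol) (z z' : E n) :
    (Λ (z * z')).right = (Λ z).right * (Λ z').right := by
  rw [map_mul]; rfl

lemma left_inv (Λ : E n →* Hol) (z : E n) :
    (Λ z⁻¹).left = (Λ z⁻¹).right ((Λ z).left)⁻¹ := by
  rw [map_inv]; rfl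

include d

/-- Elements of the parabolic subgroup. -/
lemma P_facts {p : E n} (hp : p ∈ Ph n) : (Λ p).left = 1 ∧ Ξ p (x 0) = x 0 ∧
    (∀ g, Ξ p (io g) = io ((Λ p).right g)) ∧ (Λ p).right ∈ Br n := by
  unfold Ph at hp
  induction hp using Subgroup.closure_induction with
  | mem p hp =>
    obtain ⟨i, hi, rfl⟩ := hp
    rw [d.us i hi, d.ls i hi]
    refine ⟨rfl, sg_ne (by omega) (by omega), fun g => sg_io i g, sg_mem hi⟩
  | one =>
    rw [map_one, map_one]
    exact ⟨rfl, rfl, fun g => rfl, Subgroup.one_mem _⟩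
  | mul a b _ _ iha ihb =>
    obtain ⟨a1, a2, a3, a4⟩ := iha
    obtain ⟨b1, b2, b3, b4⟩ := ihb
    refine ⟨?_, ?_, ?_, ?_⟩
    · rw [left_mul, a1, b1, map_one, one_mul]
    · rw [map_mul, MulAut.mul_apply, b2, a2]
    · intro g
      rw [map_mul, MulAut.mul_apply, b3, a3, right_mul, MulAut.mul_apply]
    · rw [right_mul]; exact Subgroup.mul_mem _ a4 b4
  | inv a _ iha =>
    obtain ⟨a1, a2, a3, a4⟩ := iha
    have hr : (Λ a⁻¹).right = ((Λ a).right)⁻¹ := by rw [map_inv]; rfl
    refine ⟨?_, ?_, ?_, ?_⟩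
    · rw [left_inv, a1, inv_one, map_one]
    · have : (Ξ a)⁻¹ (Ξ a (x 0)) = x 0 := by rw [← MulAut.mul_apply, inv_mul_cancel]; rfl
      rw [a2] at this
      rw [map_inv]
      exact this
    · intro g
      rw [hr, map_inv]
      have h1 := a3 (((Λ a).right)⁻¹ g)
      have e : (Λ a).right (((Λ a).right)⁻¹ g) = g := by
        rw [← MulAut.mul_apply, mul_inv_cancel, MulAut.one_apply]
      rw [e] at h1
      rw [← h1, ← MulAut.mul_apply, inv_mul_cancel, MulAut.one_apply]
    · rw [hr]; exact Subgroup.inv_mem _ a4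

/-- All braids are realized. -/
lemma Br_real {β : MulAut F} (hβ : β ∈ Br n) : ∃ p ∈ Ph n, (Λ p).right = β := by
  unfold Br at hβ
  induction hβ using Subgroup.closure_induction with
  | mem β hβ =>
    obtain ⟨i, hi, rfl⟩ := hβ
    exact ⟨sE n i, s_mem hi, by rw [d.ls i hi]; rfl⟩
  | one => exact ⟨1, Subgroup.one_mem _, by rw [map_one]; rfl⟩
  | mul a b _ _ iha ihb =>
    obtain ⟨p, hp, rfl⟩ := iha
    obtain ⟨q, hq, rfl⟩ := ihb
    exact ⟨p * q, Subgroup.mul_mem _ hp hq, right_mul Λ p q⟩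
  | inv a _ iha =>
    obtain ⟨p, hp, rfl⟩ := iha
    exact ⟨p⁻¹, Subgroup.inv_mem _ hp, by rw [map_inv]; rfl⟩

include hn

/-- The action fixes the long product. -/
lemma fix_C (z : E n) : Ξ z (C (n + 1)) = C (n + 1) := by
  let K : Subgroup (E n) :=
    { carrier := {z | Ξ z (C (n + 1)) = C (n + 1)}
      mul_mem' := fun {a b} ha hb => by
        show Ξ (a * b) (C (n + 1)) = C (n + 1)
        rw [map_mul, MulAut.mul_apply, hb, ha]
      one_mem' := by show Ξ 1 (C (n + 1)) = C (n + 1); rw [map_one]; rfl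
      inv_mem' := fun {a} ha => by
        show Ξ a⁻¹ (C (n + 1)) = C (n + 1)
        have ha' : Ξ a (C (n + 1)) = C (n + 1) := ha
        conv_lhs => rw [← ha']
        rw [map_inv, ← MulAut.mul_apply, inv_mul_cancel, MulAut.one_apply] }
  refine E_gen hn K ?_ ?_ z
  · intro i hi
    show Ξ (sE n i) (C (n + 1)) = C (n + 1)
    rw [d.us i hi]
    exact sg_C (by omega)
  · show Ξ (tE n) (C (n + 1)) = C (n + 1)
    have h1 : sg 0 (C (n + 1)) = C (n + 1) := sg_C (by omega)
    rw [d.ut, pow_two, MulAut.mul_apply, h1, h1]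

end data

/-- The conjugates of the generators with positive index. -/
def Cj : Set F := {u | ∃ g j, u = g * x (j + 1) * g⁻¹}

lemma Cj_iff {α : MulAut F} (h1 : ∀ j, α (x (j + 1)) ∈ Cj) (h2 : ∀ j, α⁻¹ (x (j + 1)) ∈ Cj) (u : F) :
    α u ∈ Cj ↔ u ∈ Cj := by
  have key : ∀ β : MulAut F, (∀ j, β (x (j + 1)) ∈ Cj) → ∀ u ∈ Cj, β u ∈ Cj := by
    rintro β hβ u ⟨g, j, rfl⟩
    obtain ⟨g', j', h'⟩ := hβ j
    refine ⟨β g * g', j', ?_⟩
    rw [map_mul, map_mul, map_inv, h']
    group
  constructor
  · intro h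
    have := key α⁻¹ h2 _ h
    rwa [← MulAut.mul_apply, inv_mul_cancel, MulAut.one_apply] at this
  · exact key α h1 u

lemma mem_Cj (g : F) (j : ℕ) : g * x (j + 1) * g⁻¹ ∈ Cj := ⟨g, j, rfl⟩

lemma x_mem_Cj (j : ℕ) : x (j + 1) ∈ Cj := ⟨1, j, by simp⟩

lemma Cj_s (i : ℕ) (u : F) : sg (i + 1) u ∈ Cj ↔ u ∈ Cj := by
  refine Cj_iff ?_ ?_ u
  · intro j
    by_cases h1 : j = i
    · subst h1; rw [sg_self]; exact x_mem_Cj _
    · by_cases h2 : j = i + 1
      · subst h2
        rw [sg_succ]
        have := mem_Cj (x (i + 1 + 1))⁻¹ i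
        rwa [inv_inv] at this
      · rw [sg_ne (by omega) (by omega)]; exact x_mem_Cj _
  · intro j
    by_cases h1 : j = i
    · subst h1
      rw [sgi_self]
      exact mem_Cj (x (j + 1)) (j + 1)
    · by_cases h2 : j = i + 1
      · subst h2
        rw [sgi_succ]; exact x_mem_Cj _
      · rw [sgi_ne (by omega) (by omega)]; exact x_mem_Cj _

lemma Cj_t (u : F) : (sg 0 ^ 2) u ∈ Cj ↔ u ∈ Cj := by
  have a1 : sg 0 (x 0) = x 1 := sg_self 0
  have a2 : sg 0 (x 1) = (x 1)⁻¹ * x 0 * x 1 := sg_succ 0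
  have a3 : (sg 0)⁻¹ (x 0) = x 0 * x 1 * (x 0)⁻¹ := sgi_self 0
  have a4 : (sg 0)⁻¹ (x 1) = x 0 := sgi_succ 0
  refine Cj_iff ?_ ?_ u
  · intro j
    rw [pow_two, MulAut.mul_apply]
    cases j with
    | zero =>
      rw [zero_add, a2, map_mul, map_mul, map_inv, a1, a2]
      refine ⟨((x 1)⁻¹ * x 0 * x 1)⁻¹, 0, ?_⟩
      rw [inv_inv]
    | succ j =>
      rw [sg_ne (by omega) (by omega), sg_ne (by omega) (by omega)]
      exact x_mem_Cj _
  · intro j
    rw [pow_two, mul_inv_rev, MulAut.mul_apply]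
    cases j with
    | zero =>
      rw [zero_add, a4, a3]
      exact mem_Cj (x 0) 0
    | succ j =>
      rw [sgi_ne (by omega) (by omega), sgi_ne (by omega) (by omega)]
      exact x_mem_Cj _

section data

variable {Ξ : E n →* MulAut F} {Λ : E n →* Hol} (d : Data n Ξ Λ) (hn : 3 ≤ n)

include d hn

lemma conj_mem (z : E n) (u : F) : Ξ z u ∈ Cj ↔ u ∈ Cj := by
  let K : Subgroup (E n) :=
    { carrier := {z | ∀ u, Ξ z u ∈ Cj ↔ u ∈ Cj}
      mul_mem' := fun {a b} ha hb => by
        intro u
        rw [map_mul, MulAut.mul_apply]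
        exact (ha _).trans (hb _)
      one_mem' := by intro u; rw [map_one]; rfl
      inv_mem' := fun {a} ha => by
        intro u
        have h1 := ha (Ξ a⁻¹ u)
        rw [map_inv, ← MulAut.mul_apply, mul_inv_cancel, MulAut.one_apply] at h1
        rw [map_inv]
        exact h1.symm }
  refine E_gen hn K ?_ ?_ z u
  · intro i hi u
    rw [d.us i hi]
    exact Cj_s i u
  · intro u
    rw [d.ut]
    exact Cj_t u

lemma ex_right (z : E n) (g : F) : ex ((Λ z).right g) = ex g := by
  let K : Subgroup (E n) :=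
    { carrier := {z | ∀ g, ex ((Λ z).right g) = ex g}
      mul_mem' := fun {a b} ha hb => by
        intro g
        rw [right_mul, MulAut.mul_apply]
        exact (ha _).trans (hb _)
      one_mem' := by intro g; rw [map_one]; rfl
      inv_mem' := fun {a} ha => by
        intro g
        have h1 := ha (((Λ a).right)⁻¹ g)
        rw [← MulAut.mul_apply, mul_inv_cancel, MulAut.one_apply] at h1
        have hr : (Λ a⁻¹).right = ((Λ a).right)⁻¹ := by rw [map_inv]; rfl
        rw [hr]
        exact h1.symm }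
  refine E_gen hn K ?_ ?_ z g
  · intro i hi g
    rw [d.ls i hi]
    exact ex_sg i g
  · intro g
    rw [d.lt]
    rfl

omit hn in
/-- Equivariance for the elements of the parabolic subgroup. -/
lemma Th_P (hn : 3 ≤ n) {p : E n} (hp : p ∈ Ph n) (w : F) :
    Th n (sE n) (tE n) ((Λ p).right w) = p * Th n (sE n) (tE n) w * p⁻¹ := by
  unfold Ph at hp
  induction hp using Subgroup.closure_induction generalizing w with
  | mem p hp =>
    obtain ⟨i, hi, rfl⟩ := hp
    rw [d.ls i hi]
    exact Th_equiv (BR_E hn) hi w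
  | one =>
    rw [map_one]
    show Th n (sE n) (tE n) w = _
    group
  | mul a b _ _ iha ihb =>
    rw [right_mul, MulAut.mul_apply, iha, ihb]
    group
  | inv a _ iha =>
    have hr : (Λ a⁻¹).right = ((Λ a).right)⁻¹ := by rw [map_inv]; rfl
    have h1 := iha ((Λ a⁻¹).right w)
    rw [hr, ← MulAut.mul_apply, mul_inv_cancel, MulAut.one_apply] at h1
    rw [hr, h1]
    group

/-- The elements `T_j` act trivially on the lower free group. -/
lemma right_Th (w : F) : (Λ (Th n (sE n) (tE n) w)).right = 1 := by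
  have h1 : ∀ j, (Λ (Tj (sE n) (tE n) j)).right = 1 := by
    intro j
    induction j with
    | zero =>
      show (Λ (tE n)).right = 1
      rw [d.lt]; rfl
    | succ j ih =>
      show (Λ (sE n j * Tj (sE n) (tE n) j * (sE n j)⁻¹)).right = 1
      rw [right_mul, right_mul, ih, mul_one, map_inv]
      exact mul_inv_cancel _
  have h2 : (SemidirectProduct.rightHom.comp Λ).comp (Th n (sE n) (tE n)) = 1 := by
    apply FreeGroup.ext_hom
    intro j
    show (Λ (Th n (sE n) (tE n) (x j))).right = 1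
    by_cases hj : j < n
    · rw [Th_lt _ _ hj]; exact h1 j
    · rw [Th_ge _ _ hj, map_one]; rfl
  exact congrArg (fun φ : F →* MulAut F => φ w) h2

/-- Decomposition. -/
lemma decomp (z : E n) : ∃ p ∈ Ph n, z = Th n (sE n) (tE n) (Λ z).left * p := by
  have hr : ∀ a b : E n, ∀ p ∈ Ph n, a = Th n (sE n) (tE n) (Λ a).left * p →
      (Λ a).right = (Λ p).right := by
    intro a b p hp h
    conv_lhs => rw [h]
    rw [right_mul, right_Th d hn, one_mul]
  let K : Subgroup (E n) :=
    { carrier := {z | ∃ p ∈ Ph n, z = Th n (sE n) (tE n) (Λ z).left * p}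
      mul_mem' := fun {a b} ha hb => by
        obtain ⟨p, hp, ha⟩ := ha
        obtain ⟨q, hq, hb⟩ := hb
        refine ⟨p * q, Subgroup.mul_mem _ hp hq, ?_⟩
        rw [left_mul, map_mul, hr a b p hp ha, Th_P d hn hp]
        conv_lhs => rw [ha, hb]
        group
      one_mem' := ⟨1, Subgroup.one_mem _, by
        rw [map_one]
        show 1 = Th n (sE n) (tE n) 1 * 1
        rw [map_one, mul_one]⟩
      inv_mem' := fun {a} ha => by
        obtain ⟨p, hp, ha⟩ := ha
        refine ⟨p⁻¹, Subgroup.inv_mem _ hp, ?_⟩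
        have h1 : (Λ a⁻¹).right = (Λ p⁻¹).right := by
          rw [map_inv, map_inv]
          show ((Λ a).right)⁻¹ = ((Λ p).right)⁻¹
          rw [hr a a p hp ha]
        rw [left_inv, h1, Th_P d hn (Subgroup.inv_mem _ hp), map_inv]
        conv_lhs => rw [ha]
        group }
  refine E_gen hn K ?_ ?_ z
  · intro i hi
    refine ⟨sE n i, s_mem hi, ?_⟩
    rw [d.ls i hi]
    show sE n i = Th n (sE n) (tE n) 1 * sE n i
    rw [map_one, one_mul]
  · refine ⟨1, Subgroup.one_mem _, ?_⟩
    rw [d.lt]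
    show tE n = Th n (sE n) (tE n) (x 0) * 1
    rw [Th_lt _ _ (by omega), mul_one]
    rfl

end data

/-! ### The powers of the rotation -/

lemma Dp_x (m j : ℕ) (hj : j < m) : Dp sg m (x j) = x (j + 1) := by
  induction m with
  | zero => omega
  | succ m ih =>
    show (Dp sg m * sg m) (x j) = x (j + 1)
    rw [MulAut.mul_apply]
    by_cases h : j = m
    · subst h
      rw [sg_self]
      have : ∀ k ≤ j, Dp sg k (x (j + 1)) = x (j + 1) := by
        intro k
        induction k with
        | zero => intro _; rfl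
        | succ k ih2 =>
          intro hk
          show (Dp sg k * sg k) (x (j + 1)) = x (j + 1)
          rw [MulAut.mul_apply, sg_ne (by omega) (by omega), ih2 (by omega)]
      exact this j le_rfl
    · rw [sg_ne h (by omega), ih (by omega)]

section data

variable {Ξ : E n →* MulAut F} {Λ : E n →* Hol} (d : Data n Ξ Λ) (hn : 3 ≤ n)

include d

lemma Dp_mem {m : ℕ} (hm : m + 1 ≤ n) : Dp (sE n) m ∈ Ph n := by
  induction m with
  | zero => exact Subgroup.one_mem _
  | succ m ih => exact Subgroup.mul_mem _ (ih (by omega)) (s_mem (by omega))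

lemma right_Dp {m : ℕ} (hm : m + 1 ≤ n) : (Λ (Dp (sE n) m)).right = Dp sg m := by
  induction m with
  | zero => show (Λ 1).right = 1; rw [map_one]; rfl
  | succ m ih =>
    show (Λ (Dp (sE n) m * sE n m)).right = Dp sg m * sg m
    rw [right_mul, ih (by omega), d.ls m (by omega)]
    rfl

lemma R_left : (Λ (RE n)).left = x 0 ∧ ∀ j, j + 1 < n → (Λ (RE n)).right (x j) = x (j + 1) := by
  have h1 : Dp (sE n) (n - 1) ∈ Ph n := by
    by_cases h0 : 1 ≤ n
    · exact Dp_mem d (by omega)
    · have : n = 0 := by omega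
      subst this
      exact Subgroup.one_mem _
  have h2 := (P_facts d h1).1
  refine ⟨?_, ?_⟩
  · rw [RE_eq, left_mul, h2, map_one, mul_one, d.lt]
    rfl
  · intro j hj
    rw [RE_eq, right_mul, d.lt, right_Dp d (by omega)]
    show (1 * Dp sg (n - 1)) (x j) = x (j + 1)
    rw [one_mul]
    exact Dp_x _ _ (by omega)

lemma R_up : Ξ (RE n) (x 0) = (x 1)⁻¹ * x 0 * x 1 ∧
    ∀ j, j + 1 < n → Ξ (RE n) (x (j + 1)) = x (j + 1 + 1) := by
  have h1 : Dp (sE n) (n - 1) ∈ Ph n := by
    by_cases h0 : 1 ≤ n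
    · exact Dp_mem d (by omega)
    · have : n = 0 := by omega
      subst this
      exact Subgroup.one_mem _
  obtain ⟨-, h3, h4, -⟩ := P_facts d h1
  have a1 : sg 0 (x 0) = x 1 := sg_self 0
  have a2 : sg 0 (x 1) = (x 1)⁻¹ * x 0 * x 1 := sg_succ 0
  refine ⟨?_, ?_⟩
  · rw [RE_eq, map_mul, MulAut.mul_apply, h3, d.ut, pow_two, MulAut.mul_apply, a1, a2]
  · intro j hj
    have h5 := h4 (x j)
    rw [io_x, right_Dp d (by omega), Dp_x _ _ (by omega), io_x] at h5
    rw [RE_eq, map_mul, MulAut.mul_apply, h5, d.ut, pow_two, MulAut.mul_apply,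
      sg_ne (by omega) (by omega), sg_ne (by omega) (by omega)]

lemma R_C {k : ℕ} (hk : k + 1 ≤ n) : (Λ (RE n)).right (C k) = io (C k) ∧
    Ξ (RE n) (io (C k)) = io (io (C k)) := by
  induction k with
  | zero => rw [C_zero]; simp
  | succ k ih =>
    obtain ⟨i1, i2⟩ := ih (by omega)
    refine ⟨?_, ?_⟩
    · rw [C_succ, map_mul, i1, (R_left d).2 k (by omega), map_mul, io_x]
    · rw [C_succ, map_mul, map_mul, i2, io_x, (R_up d).2 k (by omega), map_mul, io_x]

/-- The powers of the rotation. -/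
lemma R_pow {k : ℕ} (hk : k ≤ n) : (Λ (RE n ^ k)).left = C k ∧
    Ξ (RE n ^ k) (x 0) = (io (C k))⁻¹ * x 0 * io (C k) := by
  induction k with
  | zero =>
    rw [pow_zero, map_one, map_one, C_zero, map_one]
    exact ⟨rfl, by simp⟩
  | succ k ih =>
    obtain ⟨i1, i2⟩ := ih (by omega)
    obtain ⟨c1, c2⟩ := R_C d hk
    refine ⟨?_, ?_⟩
    · rw [pow_succ', left_mul, i1, c1, (R_left d).1, C_succ']
    · rw [pow_succ', map_mul, MulAut.mul_apply, i2, map_mul, map_mul, map_inv, c2, (R_up d).1,
        C_succ', map_mul, io_x, zero_add]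
      group

/-- The condition which describes the double cosets. -/
def Dc (Ξ : E n →* MulAut F) (Λ : E n →* Hol) (z : E n) : Prop :=
  Ξ z (x 0) = (io (Λ z).left)⁻¹ * x 0 * io (Λ z).left

include hn

/-- The description of the double cosets. -/
theorem double_coset {k : ℕ} (hk : k ≤ n) (z : E n) :
    (∃ p ∈ Ph n, ∃ q ∈ Ph n, z = p * RE n ^ k * q) ↔
      (Dc Ξ Λ z ∧ ex (Λ z).left = Multiplicative.ofAdd (k : ℤ)) := by
  obtain ⟨r1, r2⟩ := R_pow d hk
  constructor
  · rintro ⟨p, hp, q, hq, rfl⟩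
    obtain ⟨p1, p2, p3, -⟩ := P_facts d hp
    obtain ⟨q1, q2, -, -⟩ := P_facts d hq
    have hl : (Λ (p * RE n ^ k * q)).left = (Λ p).right (C k) := by
      rw [left_mul, q1, map_one, mul_one, left_mul, p1, one_mul, r1]
    refine ⟨?_, ?_⟩
    · unfold Dc
      rw [hl, map_mul, MulAut.mul_apply, q2, map_mul, MulAut.mul_apply, r2, map_mul, map_mul,
        map_inv, p3, p2]
    · rw [hl, ex_right d hn, ex_C]
  · rintro ⟨hD, he⟩
    unfold Dc at hD
    -- the product of the images of the generators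
    have hprod : ((List.range n).map (fun i => Ξ z (x (i + 1)))).prod =
        (io (Λ z).left)⁻¹ * (x 0)⁻¹ * io (Λ z).left * x 0 * io (C n) := by
      have h1 : ((List.range n).map (fun i => Ξ z (x (i + 1)))).prod = Ξ z (io (C n)) := by
        unfold C
        rw [map_list_prod, map_list_prod, List.map_map, List.map_map]
        rfl
      have h2 := fix_C d hn z
      rw [C_succ', map_mul, hD] at h2
      rw [h1]
      calc Ξ z (io (C n)) = ((io (Λ z).left)⁻¹ * x 0 * io (Λ z).left)⁻¹ *
            ((io (Λ z).left)⁻¹ * x 0 * io (Λ z).left * Ξ z (io (C n))) := by group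
        _ = ((io (Λ z).left)⁻¹ * x 0 * io (Λ z).left)⁻¹ * (x 0 * io (C n)) := by rw [h2]
        _ = _ := by group
    obtain ⟨β, hβ, k', hk', hf, he'⟩ := wreath n (Λ z).left _ (by
      intro u hu
      rw [List.mem_map] at hu
      obtain ⟨i, -, rfl⟩ := hu
      exact (conj_mem d hn z _).2 (x_mem_Cj i)) hprod
    have hkk : k' = k := by
      rw [he] at he'
      have := Multiplicative.ofAdd.injective he'
      exact_mod_cast this.symm
    subst hkk
    obtain ⟨p, hp, hpb⟩ := Br_real d hβ
    obtain ⟨q, hq, hz⟩ := decomp d hn z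
    obtain ⟨r, hr, hR⟩ := decomp d hn (RE n ^ k')
    rw [r1] at hR
    rw [hf, ← hpb, Th_P d hn hp] at hz
    refine ⟨p, hp, r⁻¹ * p⁻¹ * q, Subgroup.mul_mem _ (Subgroup.mul_mem _ (Subgroup.inv_mem _ hr)
      (Subgroup.inv_mem _ hp)) hq, ?_⟩
    rw [hR]
    conv_lhs => rw [hz]
    group

end data

end Unf.H65
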