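import Pool.Agent.Helper65_UNF.Brl
import Pool.Agent.Helper12_UNF.Stmts

set_option autoImplicit false

/-!
# The Artin group of affine type A and its extension by the rotation (squad UNF, module AFA)
-/

namespace Unf.H65

open Art

/-- The Coxeter matrix of affine type A with `n` nodes (`3 ≤ n`): a cycle of length `n` with
labels `3`. -/
def At (n : ℕ) : CoxeterMatrix (ZMod n) where
  M := Matrix.of fun i j => if i = j then 1 else if j = i + 1 ∨ i = j + 1 then 3 else 2
  isSymm := by
    ext i j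
    show (if j = i then 1 else if i = j + 1 ∨ j = i + 1 then 3 else 2) =
      (if i = j then 1 else if j = i + 1 ∨ i = j + 1 then 3 else 2)
    by_cases h : i = j
    · rw [if_pos h, if_pos h.symm]
    · rw [if_neg h, if_neg (Ne.symm h)]
      by_cases h2 : j = i + 1 ∨ i = j + 1
      · rw [if_pos h2, if_pos h2.symm]
      · rw [if_neg h2, if_neg (fun h3 => h2 h3.symm)]
  diagonal i := by simp
  off_diagonal i j h := by
    show (if i = j then 1 else if j = i + 1 ∨ i = j + 1 then 3 else 2) ≠ 1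
    rw [if_neg h]
    split_ifs <;> norm_num

lemma At_self (n : ℕ) (i : ZMod n) : (At n).M i i = 1 := (At n).diagonal i

lemma At_adj {n : ℕ} {i j : ZMod n} (h : i ≠ j) (h2 : j = i + 1 ∨ i = j + 1) :
    (At n).M i j = 3 := by
  show (if i = j then 1 else if j = i + 1 ∨ i = j + 1 then 3 else 2) = 3
  rw [if_neg h, if_pos h2]

lemma At_far {n : ℕ} {i j : ZMod n} (h : i ≠ j) (h2 : ¬ (j = i + 1 ∨ i = j + 1)) :
    (At n).M i j = 2 := by
  show (if i = j then 1 else if j = i + 1 ∨ i = j + 1 then 3 else 2) = 2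
  rw [if_neg h, if_neg h2]

lemma alt_three {G : Type} [Monoid G] (a b : G) : alt 3 a b = a * b * a := by
  rw [alt_succ, alt_two, mul_assoc]

section hom

variable {G : Type} [Group G] {n : ℕ} {s : ℕ → G} {t : G}

/-- Conjugates of `s 0` by powers of `ρ`. -/
def cc (r s0 : G) (m : ℕ) : G := r ^ m * s0 * (r ^ m)⁻¹

lemma cc_add (r s0 : G) (m k : ℕ) : cc r s0 (m + k) = r ^ m * cc r s0 k * (r ^ m)⁻¹ := by
  unfold cc; rw [pow_add]; group

lemma cc_eq (h : BR n s t) {i : ℕ} (hi : i + 1 < n) : cc (t * Dp s (n - 1)) (s 0) i = s i := by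
  induction i with
  | zero => unfold cc; simp
  | succ i ih =>
    rw [add_comm, cc_add, ih (by omega), pow_one, rho_s h (by omega), add_comm]
    group

lemma cc_n (h : BR n s t) (hn : 2 ≤ n) : cc (t * Dp s (n - 1)) (s 0) n = s 0 := by
  have h1 : cc (t * Dp s (n - 1)) (s 0) (2 + (n - 2)) = s 0 := by
    rw [cc_add, cc_eq h (by omega), pow_two, rho_sq h hn]
    group
  rwa [show 2 + (n - 2) = n by omega] at h1

lemma cc_mod (h : BR n s t) (hn : 2 ≤ n) (m : ℕ) :
    cc (t * Dp s (n - 1)) (s 0) m = cc (t * Dp s (n - 1)) (s 0) (m % n) := by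
  have h1 : ∀ q k, cc (t * Dp s (n - 1)) (s 0) (k + n * q) = cc (t * Dp s (n - 1)) (s 0) k := by
    intro q
    induction q with
    | zero => intro k; simp
    | succ q ih =>
      intro k
      rw [show k + n * (q + 1) = (k + n * q) + n by ring, cc_add, cc_n h hn]
      exact ih k
  conv_lhs => rw [← Nat.mod_add_div m n]
  exact h1 _ _

/-- The images of the generators. -/
def fz (n : ℕ) (r s0 : G) (i : ZMod n) : G := cc r s0 i.val

lemma fz_add (h : BR n s t) (hn : 2 ≤ n) (i j : ZMod n) :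
    fz n (t * Dp s (n - 1)) (s 0) (i + j) = (t * Dp s (n - 1)) ^ i.val *
      fz n (t * Dp s (n - 1)) (s 0) j * ((t * Dp s (n - 1)) ^ i.val)⁻¹ := by
  have : NeZero n := ⟨by omega⟩
  unfold fz
  rw [ZMod.val_add, ← cc_mod h hn, cc_add]

lemma fz_cast (h : BR n s t) (hn : 2 ≤ n) {i : ℕ} (hi : i + 1 < n) :
    fz n (t * Dp s (n - 1)) (s 0) (i : ZMod n) = s i := by
  have : NeZero n := ⟨by omega⟩
  unfold fz
  rw [ZMod.val_natCast, Nat.mod_eq_of_lt (by omega), cc_eq h hi]

lemma fz_one_add (h : BR n s t) (hn : 2 ≤ n) (i : ZMod n) :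
    fz n (t * Dp s (n - 1)) (s 0) (i + 1) = (t * Dp s (n - 1)) *
      fz n (t * Dp s (n - 1)) (s 0) i * (t * Dp s (n - 1))⁻¹ := by
  have : NeZero n := ⟨by omega⟩
  have h1 : (1 : ZMod n).val = 1 := by
    have := ZMod.val_natCast n 1
    rw [Nat.cast_one, Nat.mod_eq_of_lt (by omega)] at this
    exact this
  rw [add_comm, fz_add h hn, h1, pow_one]

lemma fz_zadd (h : BR n s t) (hn : 2 ≤ n) (i : ZMod n) (m : ℤ) :
    fz n (t * Dp s (n - 1)) (s 0) (i + (m : ZMod n)) = (t * Dp s (n - 1)) ^ m *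
      fz n (t * Dp s (n - 1)) (s 0) i * ((t * Dp s (n - 1)) ^ m)⁻¹ := by
  induction m using Int.induction_on with
  | zero => simp
  | succ m ih =>
    rw [Int.cast_add, Int.cast_one, ← add_assoc, fz_one_add h hn, ih, add_comm (m : ℤ) 1,
      zpow_add, zpow_one]
    generalize t * Dp s (n - 1) = r
    group
  | pred m ih =>
    have h1 := fz_one_add h hn (i + ((-(m : ℤ) - 1 : ℤ) : ZMod n))
    have h2 : i + ((-(m : ℤ) - 1 : ℤ) : ZMod n) + 1 = i + ((-(m : ℤ) : ℤ) : ZMod n) := by
      push_cast; ring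
    rw [h2, ih] at h1
    have h3 : fz n (t * Dp s (n - 1)) (s 0) (i + ((-(m : ℤ) - 1 : ℤ) : ZMod n)) =
        (t * Dp s (n - 1))⁻¹ * ((t * Dp s (n - 1)) ^ (-(m : ℤ)) *
          fz n (t * Dp s (n - 1)) (s 0) i * ((t * Dp s (n - 1)) ^ (-(m : ℤ)))⁻¹) *
          (t * Dp s (n - 1)) := by
      rw [h1]; group
    rw [h3, show (-(m : ℤ) - 1) = -1 + -(m : ℤ) by ring, zpow_add]
    generalize t * Dp s (n - 1) = r
    group

lemma fz_rel (h : BR n s t) (hn : 3 ≤ n) (i j : ZMod n) :
    alt ((At n).M i j) (fz n (t * Dp s (n - 1)) (s 0) i) (fz n (t * Dp s (n - 1)) (s 0) j) =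
    alt ((At n).M i j) (fz n (t * Dp s (n - 1)) (s 0) j) (fz n (t * Dp s (n - 1)) (s 0) i) := by
  have : NeZero n := ⟨by omega⟩
  have h0 : fz n (t * Dp s (n - 1)) (s 0) 0 = s 0 := by
    have := fz_cast h (by omega) (i := 0) (by omega)
    rwa [Nat.cast_zero] at this
  have h1 : fz n (t * Dp s (n - 1)) (s 0) 1 = s 1 := by
    have := fz_cast h (by omega) (i := 1) (by omega)
    rwa [Nat.cast_one] at this
  have key : ∀ i, ∃ g : G, fz n (t * Dp s (n - 1)) (s 0) i = g * s 0 * g⁻¹ ∧
      fz n (t * Dp s (n - 1)) (s 0) (i + 1) = g * s 1 * g⁻¹ := by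
    intro i
    refine ⟨(t * Dp s (n - 1)) ^ i.val, ?_, ?_⟩
    · have := fz_add h (by omega) i 0
      rwa [add_zero, h0] at this
    · have := fz_add h (by omega) i 1
      rwa [h1] at this
  have br := h.br 0 (by omega)
  rw [zero_add] at br
  by_cases hij : i = j
  · subst hij; rfl
  · by_cases h2 : j = i + 1 ∨ i = j + 1
    · rw [At_adj hij h2, alt_three, alt_three]
      rcases h2 with h2 | h2
      · subst h2
        obtain ⟨g, e1, e2⟩ := key i
        rw [e1, e2]
        calc g * s 0 * g⁻¹ * (g * s 1 * g⁻¹) * (g * s 0 * g⁻¹) = g * (s 0 * s 1 * s 0) * g⁻¹ := by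
              group
          _ = g * (s 1 * s 0 * s 1) * g⁻¹ := by rw [br]
          _ = _ := by group
      · subst h2
        obtain ⟨g, e1, e2⟩ := key j
        rw [e1, e2]
        calc g * s 1 * g⁻¹ * (g * s 0 * g⁻¹) * (g * s 1 * g⁻¹) = g * (s 1 * s 0 * s 1) * g⁻¹ := by
              group
          _ = g * (s 0 * s 1 * s 0) * g⁻¹ := by rw [br]
          _ = _ := by group
    · rw [At_far hij h2, alt_two, alt_two]
      have hd : j = i + (j - i) := by ring
      set d := j - i with hdd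
      have d0 : d.val ≠ 0 := by
        intro h3
        have : d = 0 := (ZMod.val_eq_zero d).1 h3
        apply hij
        rw [hd, this, add_zero]
      have d1 : d.val ≠ 1 := by
        intro h3
        have : d = ((1 : ℕ) : ZMod n) := by rw [← h3, ZMod.natCast_zmod_val]
        apply h2
        left
        rw [hd, this, Nat.cast_one]
      have d2 : d.val ≠ n - 1 := by
        intro h3
        have h4 : d + 1 = 0 := by
          have : d = ((n - 1 : ℕ) : ZMod n) := by rw [← h3, ZMod.natCast_zmod_val]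
          have h5 : ((n - 1 : ℕ) : ZMod n) + 1 = ((n - 1 + 1 : ℕ) : ZMod n) := by push_cast; ring
          rw [this, h5, show n - 1 + 1 = n by omega, ZMod.natCast_self]
        apply h2
        right
        rw [hd, add_assoc, h4, add_zero]
      have d3 := ZMod.val_lt d
      have h5 : fz n (t * Dp s (n - 1)) (s 0) d = s d.val := by
        have := fz_cast h (by omega) (i := d.val) (by omega)
        rwa [ZMod.natCast_zmod_val] at this
      have h6 := h.cm 0 d.val (by omega) (by omega)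
      have e1 := fz_add h (by omega) i 0
      have e2 := fz_add h (by omega) i d
      rw [add_zero, h0] at e1
      rw [← hd, h5] at e2
      rw [e1, e2]
      set g := (t * Dp s (n - 1)) ^ i.val
      calc g * s 0 * g⁻¹ * (g * s d.val * g⁻¹) = g * (s 0 * s d.val) * g⁻¹ := by group
        _ = g * (s d.val * s 0) * g⁻¹ := by rw [h6]
        _ = _ := by group

end hom

/-! ### The rotation -/

lemma At_add (n : ℕ) (i j k : ZMod n) : (At n).M (i + k) (j + k) = (At n).M i j := by
  show (if i + k = j + k then 1 else if j + k = i + k + 1 ∨ i + k = j + k + 1 then 3 else 2) =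
    (if i = j then 1 else if j = i + 1 ∨ i = j + 1 then 3 else 2)
  have e1 : (i + k = j + k) ↔ (i = j) := add_left_inj k
  have e2 : (j + k = i + k + 1) ↔ (j = i + 1) := by
    rw [add_right_comm]; exact add_left_inj k
  have e3 : (i + k = j + k + 1) ↔ (i = j + 1) := by
    rw [add_right_comm]; exact add_left_inj k
  simp only [e1, e2, e3]

lemma rot_exists (n : ℕ) (k : ZMod n) : ∃ Φ : Gp (At n) →* Gp (At n),
    ∀ i, Φ (gen _ i) = gen _ (i + k) := by
  refine Art.lift (At n) (fun i => gen (At n) (i + k)) ?_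
  intro i j hij
  have := relHolds (At n) (i + k) (j + k) (by rw [At_add]; exact hij)
  rwa [At_add] at this

/-- The rotation by `k`. -/
noncomputable def rotH (n : ℕ) (k : ZMod n) : Gp (At n) →* Gp (At n) := (rot_exists n k).choose

lemma rotH_gen (n : ℕ) (k i : ZMod n) : rotH n k (gen _ i) = gen _ (i + k) :=
  (rot_exists n k).choose_spec i

lemma rotH_comp (n : ℕ) (k l : ZMod n) (hkl : l + k = 0) :
    (rotH n k).comp (rotH n l) = MonoidHom.id _ := by
  apply Art.ext
  intro i
  rw [MonoidHom.comp_apply, rotH_gen, rotH_gen, add_assoc, hkl, add_zero]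
  rfl

/-- The rotation as an automorphism. -/
noncomputable def rotA (n : ℕ) (k : ZMod n) : MulAut (Gp (At n)) :=
  MonoidHom.toMulEquiv (rotH n k) (rotH n (-k)) (rotH_comp n _ _ (by ring)) (rotH_comp n _ _ (by ring))

lemma rotA_gen (n : ℕ) (k i : ZMod n) : rotA n k (gen _ i) = gen _ (i + k) := rotH_gen n k i

lemma rotA_ext {n : ℕ} {α β : MulAut (Gp (At n))} (h : ∀ i, α (gen _ i) = β (gen _ i)) : α = β := by
  have h1 : α.toMonoidHom = β.toMonoidHom := Art.ext (At n) _ _ h
  ext g
  exact congrArg (fun φ : Gp (At n) →* Gp (At n) => φ g) h1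

/-- The action of the integers by rotations. -/
noncomputable def rz (n : ℕ) : Multiplicative ℤ →* MulAut (Gp (At n)) where
  toFun m := rotA n ((m.toAdd : ℤ) : ZMod n)
  map_one' := by
    apply rotA_ext
    intro i
    rw [rotA_gen]
    show gen _ (i + ((0 : ℤ) : ZMod n)) = gen _ i
    rw [Int.cast_zero, add_zero]
  map_mul' a b := by
    apply rotA_ext
    intro i
    rw [MulAut.mul_apply, rotA_gen, rotA_gen, rotA_gen, toAdd_mul, Int.cast_add, add_assoc,
      add_comm ((b.toAdd : ℤ) : ZMod n)]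

lemma rz_gen (n : ℕ) (m : Multiplicative ℤ) (i : ZMod n) :
    rz n m (gen _ i) = gen _ (i + ((m.toAdd : ℤ) : ZMod n)) := rotA_gen n _ i

/-- The extension of the Artin group of affine type A by the rotation. -/
abbrev E (n : ℕ) : Type := Gp (At n) ⋊[rz n] Multiplicative ℤ

/-- The standard generators. -/
noncomputable def sE (n : ℕ) (i : ℕ) : E n := SemidirectProduct.inl (gen (At n) (i : ZMod n))

/-- The rotation. -/
noncomputable def RE (n : ℕ) : E n := SemidirectProduct.inr (Multiplicative.ofAdd 1)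

/-- The special generator of type B. -/
noncomputable def tE (n : ℕ) : E n := RE n * (Dp (sE n) (n - 1))⁻¹

lemma RE_eq (n : ℕ) : RE n = tE n * Dp (sE n) (n - 1) := by unfold tE; group

lemma inr_gen (n : ℕ) (m : Multiplicative ℤ) (i : ZMod n) :
    (SemidirectProduct.inr m : E n) * SemidirectProduct.inl (gen (At n) i) =
      SemidirectProduct.inl (gen (At n) (i + ((m.toAdd : ℤ) : ZMod n))) *
        SemidirectProduct.inr m := by
  rw [← rz_gen, SemidirectProduct.inl_aut, map_inv]
  group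

lemma RE_s (n i : ℕ) : RE n * sE n i = sE n (i + 1) * RE n := by
  unfold RE sE
  rw [inr_gen]
  simp

theorem E_lift {G : Type} [Group G] {n : ℕ} {s : ℕ → G} {t : G} (h : BR n s t) (hn : 3 ≤ n) :
    ∃ Ξ : E n →* G, (∀ i, i + 1 < n → Ξ (sE n i) = s i) ∧ Ξ (tE n) = t := by
  obtain ⟨Θ, hΘ⟩ := Art.lift (At n) (fz n (t * Dp s (n - 1)) (s 0)) (fun i j _ => fz_rel h hn i j)
  have hcomp : ∀ g : Multiplicative ℤ, Θ.comp (rz n g).toMonoidHom =
      (MulAut.conj (zpowersHom G (t * Dp s (n - 1)) g)).toMonoidHom.comp Θ := by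
    intro g
    apply Art.ext
    intro i
    show Θ (rz n g (gen _ i)) = zpowersHom G (t * Dp s (n - 1)) g * Θ (gen _ i) *
      (zpowersHom G (t * Dp s (n - 1)) g)⁻¹
    rw [rz_gen, hΘ, hΘ, zpowersHom_apply, fz_zadd h (by omega)]
  refine ⟨SemidirectProduct.lift Θ (zpowersHom G (t * Dp s (n - 1))) hcomp, ?_, ?_⟩
  · intro i hi
    unfold sE
    rw [SemidirectProduct.lift_inl, hΘ, fz_cast h (by omega) hi]
  · have h1 : ∀ m, m + 1 ≤ n → SemidirectProduct.lift Θ (zpowersHom G (t * Dp s (n - 1))) hcomp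
        (Dp (sE n) m) = Dp s m := by
      intro m
      induction m with
      | zero => intro _; exact map_one _
      | succ m ih =>
        intro hm
        show SemidirectProduct.lift Θ (zpowersHom G (t * Dp s (n - 1))) hcomp
          (Dp (sE n) m * sE n m) = Dp s m * s m
        rw [map_mul, ih (by omega)]
        congr 1
        unfold sE
        rw [SemidirectProduct.lift_inl, hΘ, fz_cast h (by omega) (by omega)]
    unfold tE
    rw [map_mul, map_inv, h1 (n - 1) (by omega)]
    unfold RE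
    rw [SemidirectProduct.lift_inr, zpowersHom_apply, toAdd_ofAdd, zpow_one]
    group

lemma cast_ne {n i j : ℕ} (hi : i < n) (hj : j < n) (hij : i ≠ j) : (i : ZMod n) ≠ (j : ZMod n) := by
  intro h
  have h1 := congrArg ZMod.val h
  rw [ZMod.val_natCast, ZMod.val_natCast, Nat.mod_eq_of_lt hi, Nat.mod_eq_of_lt hj] at h1
  exact hij h1

/-- The relations of type B in the extension. -/
theorem BR_E {n : ℕ} (hn : 3 ≤ n) : BR n (sE n) (tE n) := by
  have h0 : B0 n (sE n) := by
    constructor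
    · intro i hi
      have h1 : (At n).M (i : ZMod n) ((i + 1 : ℕ) : ZMod n) = 3 :=
        At_adj (cast_ne (by omega) (by omega) (by omega)) (Or.inl (by push_cast; rfl))
      have h2 := relHolds (At n) (i : ZMod n) ((i + 1 : ℕ) : ZMod n) (by rw [h1]; norm_num)
      rw [h1, alt_three, alt_three] at h2
      have h3 := congrArg (SemidirectProduct.inl (φ := rz n)) h2
      rw [map_mul, map_mul, map_mul, map_mul] at h3
      exact h3
    · intro i j hij hj
      have h1 : (At n).M (i : ZMod n) (j : ZMod n) = 2 := by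
        refine At_far (cast_ne (by omega) (by omega) (by omega)) ?_
        rintro (h | h)
        · rw [← Nat.cast_one, ← Nat.cast_add] at h
          exact cast_ne (by omega) (by omega) (by omega) h
        · rw [← Nat.cast_one, ← Nat.cast_add] at h
          exact cast_ne (by omega) (by omega) (by omega) h
      have h2 := relHolds (At n) (i : ZMod n) (j : ZMod n) (by rw [h1]; norm_num)
      rw [h1, alt_two, alt_two] at h2
      have h3 := congrArg (SemidirectProduct.inl (φ := rz n)) h2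
      rw [map_mul, map_mul] at h3
      exact h3
  refine ⟨h0, ?_, ?_⟩
  · intro i hi1 hi2
    obtain ⟨i, rfl⟩ : ∃ k, i = k + 1 := ⟨i - 1, by omega⟩
    have h1 := Dp_shift h0 (show i + 2 ≤ n - 1 by omega) (by omega)
    have h2 := RE_s n i
    unfold tE
    set D := Dp (sE n) (n - 1)
    have h3 : D⁻¹ * sE n (i + 1) = sE n i * D⁻¹ := by
      calc D⁻¹ * sE n (i + 1) = D⁻¹ * (sE n (i + 1) * D) * D⁻¹ := by group
        _ = D⁻¹ * (D * sE n i) * D⁻¹ := by rw [h1]
        _ = _ := by group
    calc RE n * D⁻¹ * sE n (i + 1) = RE n * (D⁻¹ * sE n (i + 1)) := by group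
      _ = RE n * (sE n i * D⁻¹) := by rw [h3]
      _ = (RE n * sE n i) * D⁻¹ := by group
      _ = (sE n (i + 1) * RE n) * D⁻¹ := by rw [h2]
      _ = _ := by group
  · intro _
    obtain ⟨m, rfl⟩ : ∃ m, n = m + 2 := ⟨n - 2, by omega⟩
    have a2 := Dq_shift h0 (show m + 1 < m + 2 by omega)
    have a4 := Dp_eq (sE (m + 2)) m
    unfold tE
    have e0 : m + 2 - 1 = m + 1 := rfl
    rw [e0] at a2 ⊢
    have a5 : Dp (sE (m + 2)) (m + 1) = Dp (sE (m + 2)) m * sE (m + 2) m := rfl
    -- `R D_0 = D' R`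
    have a6 : ∀ k, RE (m + 2) * Dp (sE (m + 2)) k = Dq (sE (m + 2)) k * RE (m + 2) := by
      intro k
      induction k with
      | zero => show RE (m + 2) * 1 = 1 * RE (m + 2); rw [one_mul, mul_one]
      | succ k ih =>
        show RE (m + 2) * (Dp (sE (m + 2)) k * sE (m + 2) k) =
          Dq (sE (m + 2)) k * sE (m + 2) (k + 1) * RE (m + 2)
        rw [← mul_assoc, ih, mul_assoc, RE_s, mul_assoc]
    have a7 : sE (m + 2) 0 * (RE (m + 2) * RE (m + 2)) =
        RE (m + 2) * RE (m + 2) * sE (m + 2) m := by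
      have c0 : sE (m + 2) 0 = sE (m + 2) (m + 1 + 1) := by
        unfold sE
        congr 2
        rw [show m + 1 + 1 = m + 2 by rfl, ZMod.natCast_self, Nat.cast_zero]
      rw [mul_assoc (RE (m + 2)), RE_s, ← mul_assoc (RE (m + 2)), RE_s, c0, mul_assoc]
    set R := RE (m + 2)
    set D0 := Dp (sE (m + 2)) m
    set D' := Dq (sE (m + 2)) m
    set s0 := sE (m + 2) 0
    set sm := sE (m + 2) m
    rw [a4] at a2 a5 ⊢
    have b1 := a6 m
    -- everything follows from `s0 (D' D0) = (D' D0) sm`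
    have b2 : s0 * (D' * D0) = D' * D0 * sm := by
      calc s0 * (D' * D0) = s0 * D' * D0 := by group
        _ = D' * (s0 * D') := a2.symm
        _ = D' * (D0 * sm) := by rw [a5]
        _ = _ := by group
    have b3 : R * D'⁻¹ * (R * D'⁻¹) = R * R * (D' * D0)⁻¹ := by
      have : D'⁻¹ * R = R * D0⁻¹ := by
        calc D'⁻¹ * R = D'⁻¹ * (R * D0) * D0⁻¹ := by group
          _ = D'⁻¹ * (D' * R) * D0⁻¹ := by rw [b1]
          _ = _ := by group
      calc R * D'⁻¹ * (R * D'⁻¹) = R * (D'⁻¹ * R) * D'⁻¹ := by group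
        _ = R * (R * D0⁻¹) * D'⁻¹ := by rw [this]
        _ = _ := by group
    have b4 : s0 * (R * D'⁻¹ * (R * D'⁻¹)) = R * D'⁻¹ * (R * D'⁻¹) * s0 := by
      rw [b3]
      have : sm * (D' * D0)⁻¹ = (D' * D0)⁻¹ * s0 := by
        calc sm * (D' * D0)⁻¹ = (D' * D0)⁻¹ * (D' * D0 * sm) * (D' * D0)⁻¹ := by group
          _ = (D' * D0)⁻¹ * (s0 * (D' * D0)) * (D' * D0)⁻¹ := by rw [b2]
          _ = _ := by group
      calc s0 * (R * R * (D' * D0)⁻¹) = (s0 * (R * R)) * (D' * D0)⁻¹ := by group
        _ = (R * R * sm) * (D' * D0)⁻¹ := by rw [a7]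
        _ = R * R * (sm * (D' * D0)⁻¹) := by group
        _ = R * R * ((D' * D0)⁻¹ * s0) := by rw [this]
        _ = _ := by group
    calc R * (s0 * D')⁻¹ * s0 * (R * (s0 * D')⁻¹) * s0 = R * D'⁻¹ * (R * D'⁻¹) := by group
      _ = (R * D'⁻¹ * (R * D'⁻¹) * s0) * s0⁻¹ := by group
      _ = (s0 * (R * D'⁻¹ * (R * D'⁻¹))) * s0⁻¹ := by rw [b4]
      _ = _ := by group

end Unf.H65
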