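import Pool.Agent.Helper65_UNF.Wre

set_option autoImplicit false

/-!
# Relations of type B (squad UNF, module AFA)
-/

namespace Unf.H65

/-- Braid relations for `s 0, ..., s (n-2)`. -/
structure B0 (n : ℕ) {G : Type} [Group G] (s : ℕ → G) : Prop where
  br : ∀ i, i + 2 < n → s i * s (i + 1) * s i = s (i + 1) * s i * s (i + 1)
  cm : ∀ i j, i + 2 ≤ j → j + 1 < n → s i * s j = s j * s i

/-- Relations of type B. -/
structure BR (n : ℕ) {G : Type} [Group G] (s : ℕ → G) (t : G) : Prop extends B0 n s where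
  tc : ∀ i, 1 ≤ i → i + 1 < n → t * s i = s i * t
  tb : 1 < n → t * s 0 * t * s 0 = s 0 * t * s 0 * t

variable {G : Type} [Group G]

/-- The product `s 0 ... s (m-1)`. -/
def Dp (s : ℕ → G) : ℕ → G
  | 0 => 1
  | m + 1 => Dp s m * s m

/-- The product `s 1 ... s m`. -/
def Dq (s : ℕ → G) : ℕ → G
  | 0 => 1
  | m + 1 => Dq s m * s (m + 1)

lemma Dp_eq (s : ℕ → G) (m : ℕ) : Dp s (m + 1) = s 0 * Dq s m := by
  induction m with
  | zero => show 1 * s 0 = s 0 * 1; rw [one_mul, mul_one]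
  | succ m ih =>
    show Dp s (m + 1) * s (m + 1) = s 0 * (Dq s m * s (m + 1))
    rw [ih, mul_assoc]

section B0

variable {n : ℕ} {s : ℕ → G} (h : B0 n s)

include h

lemma Dp_comm {i j : ℕ} (hij : i + 1 ≤ j) (hj : j + 1 < n) : s j * Dp s i = Dp s i * s j := by
  induction i with
  | zero => show s j * 1 = 1 * s j; rw [one_mul, mul_one]
  | succ i ih =>
    show s j * (Dp s i * s i) = Dp s i * s i * s j
    rw [← mul_assoc, ih (by omega), mul_assoc, mul_assoc, h.cm i j (by omega) hj]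

lemma Dp_shift {i m : ℕ} (h1 : i + 2 ≤ m) (h2 : m < n) : Dp s m * s i = s (i + 1) * Dp s m := by
  induction m, h1 using Nat.le_induction with
  | base =>
    show Dp s i * s i * s (i + 1) * s i = s (i + 1) * (Dp s i * s i * s (i + 1))
    calc Dp s i * s i * s (i + 1) * s i = Dp s i * (s i * s (i + 1) * s i) := by group
      _ = Dp s i * (s (i + 1) * s i * s (i + 1)) := by rw [h.br i h2]
      _ = (Dp s i * s (i + 1)) * s i * s (i + 1) := by group
      _ = (s (i + 1) * Dp s i) * s i * s (i + 1) := by rw [Dp_comm h le_rfl h2]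
      _ = _ := by group
  | succ m hm ih =>
    show Dp s m * s m * s i = s (i + 1) * (Dp s m * s m)
    rw [mul_assoc, ← h.cm i m hm (by omega), ← mul_assoc, ih (by omega), mul_assoc]

lemma Dq_shift {m : ℕ} (hm : m + 1 < n) : Dq s m * Dp s (n - 1) = Dp s (n - 1) * Dp s m := by
  induction m with
  | zero => show 1 * Dp s (n - 1) = Dp s (n - 1) * 1; rw [one_mul, mul_one]
  | succ m ih =>
    show Dq s m * s (m + 1) * Dp s (n - 1) = Dp s (n - 1) * (Dp s m * s m)
    rw [mul_assoc, ← Dp_shift h (show m + 2 ≤ n - 1 by omega) (by omega), ← mul_assoc, ih (by omega),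
      mul_assoc]

end B0

/-! ### The elements `T_j` -/

/-- Conjugates of `t`. -/
def Tj (s : ℕ → G) (t : G) : ℕ → G
  | 0 => t
  | j + 1 => s j * Tj s t j * (s j)⁻¹

/-- The homomorphism from the free group. -/
def Th (n : ℕ) (s : ℕ → G) (t : G) : F →* G := FreeGroup.lift (fun j => if j < n then Tj s t j else 1)

lemma Th_lt {n : ℕ} (s : ℕ → G) (t : G) {j : ℕ} (h : j < n) : Th n s t (x j) = Tj s t j := by
  unfold Th; rw [FreeGroup.lift_apply_of, if_pos h]

lemma Th_ge {n : ℕ} (s : ℕ → G) (t : G) {j : ℕ} (h : ¬ j < n) : Th n s t (x j) = 1 := by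
  unfold Th; rw [FreeGroup.lift_apply_of, if_neg h]

section BR

variable {n : ℕ} {s : ℕ → G} {t : G} (h : BR n s t)

include h

lemma comm_lt {j i : ℕ} (hji : j < i) (hi : i + 1 < n) : s i * Tj s t j = Tj s t j * s i := by
  induction j with
  | zero => exact (h.tc i (by omega) hi).symm
  | succ j ih =>
    have h1 := ih (by omega)
    have h2 := h.cm j i (by omega) hi
    show s i * (s j * Tj s t j * (s j)⁻¹) = s j * Tj s t j * (s j)⁻¹ * s i
    calc s i * (s j * Tj s t j * (s j)⁻¹) = (s i * s j) * Tj s t j * (s j)⁻¹ := by group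
      _ = (s j * s i) * Tj s t j * (s j)⁻¹ := by rw [h2]
      _ = s j * (s i * Tj s t j) * (s j)⁻¹ := by group
      _ = s j * (Tj s t j * s i) * (s j)⁻¹ := by rw [h1]
      _ = s j * Tj s t j * (s j)⁻¹ * (s j * s i) * (s j)⁻¹ := by group
      _ = s j * Tj s t j * (s j)⁻¹ * (s i * s j) * (s j)⁻¹ := by rw [h2]
      _ = _ := by group

lemma comm_gt {i j : ℕ} (hij : i + 2 ≤ j) (hj : j < n) : s i * Tj s t j = Tj s t j * s i := by
  induction j, hij using Nat.le_induction with
  | base =>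
    have h1 := comm_lt h (show i < i + 1 by omega) hj
    have h2 := h.br i hj
    have h3 : s (i + 1) * (s i)⁻¹ * (s (i + 1))⁻¹ = (s i)⁻¹ * (s (i + 1))⁻¹ * s i := by
      calc s (i + 1) * (s i)⁻¹ * (s (i + 1))⁻¹
          = (s i)⁻¹ * (s (i + 1))⁻¹ * (s (i + 1) * s i * s (i + 1)) * (s i)⁻¹ * (s (i + 1))⁻¹ := by
            group
        _ = (s i)⁻¹ * (s (i + 1))⁻¹ * (s i * s (i + 1) * s i) * (s i)⁻¹ * (s (i + 1))⁻¹ := by
            rw [h2]
        _ = _ := by group
    show s i * (s (i + 1) * (s i * Tj s t i * (s i)⁻¹) * (s (i + 1))⁻¹) =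
      s (i + 1) * (s i * Tj s t i * (s i)⁻¹) * (s (i + 1))⁻¹ * s i
    calc s i * (s (i + 1) * (s i * Tj s t i * (s i)⁻¹) * (s (i + 1))⁻¹)
        = (s i * s (i + 1) * s i) * Tj s t i * (s i)⁻¹ * (s (i + 1))⁻¹ := by group
      _ = (s (i + 1) * s i * s (i + 1)) * Tj s t i * (s i)⁻¹ * (s (i + 1))⁻¹ := by rw [h2]
      _ = s (i + 1) * s i * (s (i + 1) * Tj s t i) * (s i)⁻¹ * (s (i + 1))⁻¹ := by group
      _ = s (i + 1) * s i * (Tj s t i * s (i + 1)) * (s i)⁻¹ * (s (i + 1))⁻¹ := by rw [h1]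
      _ = s (i + 1) * s i * Tj s t i * (s (i + 1) * (s i)⁻¹ * (s (i + 1))⁻¹) := by group
      _ = s (i + 1) * s i * Tj s t i * ((s i)⁻¹ * (s (i + 1))⁻¹ * s i) := by rw [h3]
      _ = _ := by group
  | succ j hj' ih =>
    have h1 := ih (by omega)
    have h2 := h.cm i j hj' (by omega)
    show s i * (s j * Tj s t j * (s j)⁻¹) = s j * Tj s t j * (s j)⁻¹ * s i
    calc s i * (s j * Tj s t j * (s j)⁻¹) = (s i * s j) * Tj s t j * (s j)⁻¹ := by group
      _ = (s j * s i) * Tj s t j * (s j)⁻¹ := by rw [h2]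
      _ = s j * (s i * Tj s t j) * (s j)⁻¹ := by group
      _ = s j * (Tj s t j * s i) * (s j)⁻¹ := by rw [h1]
      _ = s j * Tj s t j * (s j)⁻¹ * (s j * s i) * (s j)⁻¹ := by group
      _ = s j * Tj s t j * (s j)⁻¹ * (s i * s j) * (s j)⁻¹ := by rw [h2]
      _ = _ := by group

lemma b2 {i : ℕ} (hi : i + 1 < n) :
    Tj s t i * s i * Tj s t i * s i = s i * Tj s t i * s i * Tj s t i := by
  induction i with
  | zero => exact h.tb (by omega)
  | succ i ih =>
    have h1 := ih (by omega)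
    have h2 := h.br i hi
    have h3 := comm_lt h (show i < i + 1 by omega) hi
    set g := s i * s (i + 1) with hg
    have e1 : s (i + 1) = g * s i * g⁻¹ := by
      rw [hg]
      calc s (i + 1) = (s (i + 1) * s i * s (i + 1)) * (s (i + 1))⁻¹ * (s i)⁻¹ := by group
        _ = (s i * s (i + 1) * s i) * (s (i + 1))⁻¹ * (s i)⁻¹ := by rw [h2]
        _ = _ := by group
    have e2 : Tj s t (i + 1) = g * Tj s t i * g⁻¹ := by
      rw [hg]
      show s i * Tj s t i * (s i)⁻¹ = _
      calc s i * Tj s t i * (s i)⁻¹ = s i * (Tj s t i * s (i + 1)) * (s (i + 1))⁻¹ * (s i)⁻¹ := by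
            group
        _ = s i * (s (i + 1) * Tj s t i) * (s (i + 1))⁻¹ * (s i)⁻¹ := by rw [h3]
        _ = _ := by group
    rw [e2, e1]
    calc g * Tj s t i * g⁻¹ * (g * s i * g⁻¹) * (g * Tj s t i * g⁻¹) * (g * s i * g⁻¹)
        = g * (Tj s t i * s i * Tj s t i * s i) * g⁻¹ := by group
      _ = g * (s i * Tj s t i * s i * Tj s t i) * g⁻¹ := by rw [h1]
      _ = _ := by group

/-- Equivariance of the homomorphism from the free group. -/
theorem Th_equiv {i : ℕ} (hi : i + 1 < n) (w : F) :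
    Th n s t (sg i w) = s i * Th n s t w * (s i)⁻¹ := by
  have key : (Th n s t).comp (sg i).toMonoidHom =
      (MulAut.conj (s i)).toMonoidHom.comp (Th n s t) := by
    apply FreeGroup.ext_hom
    intro j
    show Th n s t (sg i (x j)) = s i * Th n s t (x j) * (s i)⁻¹
    rw [sg_x]
    by_cases h1 : j = i
    · subst h1
      rw [fw_self, Th_lt s t hi, Th_lt s t (show j < n by omega)]
      rfl
    · by_cases h2 : j = i + 1
      · subst h2
        rw [fw_succ, map_mul, map_mul, map_inv, Th_lt s t hi, Th_lt s t (show i < n by omega)]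
        have h3 := b2 h hi
        set T := Tj s t i with hT
        show (s i * T * (s i)⁻¹)⁻¹ * T * (s i * T * (s i)⁻¹) = s i * (s i * T * (s i)⁻¹) * (s i)⁻¹
        calc (s i * T * (s i)⁻¹)⁻¹ * T * (s i * T * (s i)⁻¹)
            = s i * T⁻¹ * (s i)⁻¹ * (T * s i * T * s i) * (s i)⁻¹ * (s i)⁻¹ := by group
          _ = s i * T⁻¹ * (s i)⁻¹ * (s i * T * s i * T) * (s i)⁻¹ * (s i)⁻¹ := by rw [h3]
          _ = _ := by group
      · rw [fw_ne h1 h2]
        by_cases h3 : j < n
        · rw [Th_lt s t h3]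
          have h4 : s i * Tj s t j = Tj s t j * s i := by
            rcases Nat.lt_or_ge j i with h5 | h5
            · exact comm_lt h h5 hi
            · exact comm_gt h (by omega) h3
          rw [h4]; group
        · rw [Th_ge s t h3]; group
  exact congrArg (fun φ : F →* G => φ w) key

/-! ### The element `ρ` -/

lemma t_Dq {m : ℕ} (hm : m + 1 < n) : t * Dq s m = Dq s m * t := by
  induction m with
  | zero => show t * 1 = 1 * t; rw [one_mul, mul_one]
  | succ m ih =>
    show t * (Dq s m * s (m + 1)) = Dq s m * s (m + 1) * t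
    rw [← mul_assoc, ih (by omega), mul_assoc, h.tc (m + 1) (by omega) hm, mul_assoc]

lemma rho_s {i : ℕ} (hi : i + 2 < n) : t * Dp s (n - 1) * s i = s (i + 1) * (t * Dp s (n - 1)) := by
  rw [mul_assoc, Dp_shift h.toB0 (by omega) (by omega), ← mul_assoc, h.tc (i + 1) (by omega) hi,
    mul_assoc]

lemma rho_sq (hn : 2 ≤ n) : (t * Dp s (n - 1)) * (t * Dp s (n - 1)) * s (n - 2) =
    s 0 * ((t * Dp s (n - 1)) * (t * Dp s (n - 1))) := by
  obtain ⟨m, rfl⟩ : ∃ m, n = m + 2 := ⟨n - 2, by omega⟩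
  have e0 : m + 2 - 1 = m + 1 := rfl
  have e1 : m + 2 - 2 = m := rfl
  have a1 := t_Dq h (show m + 1 < m + 2 by omega)
  have a2 := Dq_shift h.toB0 (show m + 1 < m + 2 by omega)
  have a3 := h.tb (by omega)
  have a4 := Dp_eq s m
  rw [e0] at a2
  rw [e0, e1]
  have a5 : Dp s (m + 1) = Dp s m * s m := rfl
  -- both sides equal `t s0 t D' δ s_(n-2)`
  calc t * Dp s (m + 1) * (t * Dp s (m + 1)) * s m
      = t * (s 0 * Dq s m) * t * Dp s (m + 1) * s m := by rw [← a4]; group
    _ = t * s 0 * (Dq s m * t) * Dp s (m + 1) * s m := by group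
    _ = t * s 0 * (t * Dq s m) * Dp s (m + 1) * s m := by rw [a1]
    _ = t * s 0 * t * (Dq s m * Dp s (m + 1)) * s m := by group
    _ = t * s 0 * t * (Dp s (m + 1) * Dp s m) * s m := by rw [a2]
    _ = t * s 0 * t * Dp s (m + 1) * (Dp s m * s m) := by group
    _ = t * s 0 * t * Dp s (m + 1) * Dp s (m + 1) := by rw [← a5]
    _ = t * s 0 * t * (s 0 * Dq s m) * Dp s (m + 1) := by rw [← a4]
    _ = (t * s 0 * t * s 0) * Dq s m * Dp s (m + 1) := by group
    _ = (s 0 * t * s 0 * t) * Dq s m * Dp s (m + 1) := by rw [a3]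
    _ = s 0 * t * s 0 * (t * Dq s m) * Dp s (m + 1) := by group
    _ = s 0 * t * s 0 * (Dq s m * t) * Dp s (m + 1) := by rw [a1]
    _ = s 0 * (t * (s 0 * Dq s m) * (t * Dp s (m + 1))) := by group
    _ = _ := by rw [← a4]

end BR

end Unf.H65
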