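import Mathlib

set_option autoImplicit false

/-!
# Artin's theorem on factorizations in a free group

A factorization of `x_0 x_1 ... x_(n-1)` into `n` conjugates of generators is the image of the
trivial one under a braid (squad UNF, module AFA).
-/

namespace Unf.H65

/-- The free group on infinitely many generators. -/
abbrev F : Type := FreeGroup ℕ

/-- The generators. -/
abbrev x (j : ℕ) : F := FreeGroup.of j

/-- The images of the generators under the Artin automorphism. -/
def fw (i j : ℕ) : F :=
  if j = i then x (i + 1) else if j = i + 1 then (x (i + 1))⁻¹ * x i * x (i + 1) else x j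

/-- The images of the generators under the inverse of the Artin automorphism. -/
def bw (i j : ℕ) : F :=
  if j = i then x i * x (i + 1) * (x i)⁻¹ else if j = i + 1 then x i else x j

lemma fw_self (i : ℕ) : fw i i = x (i + 1) := by simp [fw]
lemma fw_succ (i : ℕ) : fw i (i + 1) = (x (i + 1))⁻¹ * x i * x (i + 1) := by simp [fw]
lemma fw_ne {i j : ℕ} (h1 : j ≠ i) (h2 : j ≠ i + 1) : fw i j = x j := by simp [fw, h1, h2]
lemma bw_self (i : ℕ) : bw i i = x i * x (i + 1) * (x i)⁻¹ := by simp [bw]
lemma bw_succ (i : ℕ) : bw i (i + 1) = x i := by simp [bw]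
lemma bw_ne {i j : ℕ} (h1 : j ≠ i) (h2 : j ≠ i + 1) : bw i j = x j := by simp [bw, h1, h2]

lemma bf (i : ℕ) : (FreeGroup.lift (bw i)).comp (FreeGroup.lift (fw i)) = MonoidHom.id F := by
  apply FreeGroup.ext_hom
  intro j
  rw [MonoidHom.comp_apply, FreeGroup.lift_apply_of, MonoidHom.id_apply]
  by_cases h1 : j = i
  · subst h1
    rw [fw_self, FreeGroup.lift_apply_of, bw_succ]
  · by_cases h2 : j = i + 1
    · subst h2
      rw [fw_succ, map_mul, map_mul, map_inv, FreeGroup.lift_apply_of, FreeGroup.lift_apply_of,
        bw_self, bw_succ]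
      group
    · rw [fw_ne h1 h2, FreeGroup.lift_apply_of, bw_ne h1 h2]

lemma fb (i : ℕ) : (FreeGroup.lift (fw i)).comp (FreeGroup.lift (bw i)) = MonoidHom.id F := by
  apply FreeGroup.ext_hom
  intro j
  rw [MonoidHom.comp_apply, FreeGroup.lift_apply_of, MonoidHom.id_apply]
  by_cases h1 : j = i
  · subst h1
    rw [bw_self, map_mul, map_mul, map_inv, FreeGroup.lift_apply_of, FreeGroup.lift_apply_of,
      fw_self, fw_succ]
    group
  · by_cases h2 : j = i + 1
    · subst h2
      rw [bw_succ, FreeGroup.lift_apply_of, fw_self]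
    · rw [bw_ne h1 h2, FreeGroup.lift_apply_of, fw_ne h1 h2]

/-- The Artin automorphism. -/
def sg (i : ℕ) : MulAut F :=
  MonoidHom.toMulEquiv (FreeGroup.lift (fw i)) (FreeGroup.lift (bw i)) (bf i) (fb i)

lemma sg_apply (i : ℕ) (g : F) : sg i g = FreeGroup.lift (fw i) g := rfl
lemma sgi_apply (i : ℕ) (g : F) : (sg i)⁻¹ g = FreeGroup.lift (bw i) g := rfl

lemma sg_x (i j : ℕ) : sg i (x j) = fw i j := by rw [sg_apply, FreeGroup.lift_apply_of]
lemma sgi_x (i j : ℕ) : (sg i)⁻¹ (x j) = bw i j := by rw [sgi_apply, FreeGroup.lift_apply_of]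

/-- The product of the first generators. -/
def C (n : ℕ) : F := ((List.range n).map x).prod

lemma C_zero : C 0 = 1 := rfl

lemma C_succ (n : ℕ) : C (n + 1) = C n * x n := by
  unfold C
  rw [List.range_succ, List.map_append, List.prod_append]
  simp

/-! ### Words -/

lemma toWord_mul_of {g h : F} (H : ∀ p ∈ g.toWord.getLast?, ∀ q ∈ h.toWord.head?,
    p.1 = q.1 → p.2 = q.2) : (g * h).toWord = g.toWord ++ h.toWord := by
  rw [FreeGroup.toWord_mul]
  apply FreeGroup.IsReduced.reduce_eq
  exact List.isChain_append.2 ⟨FreeGroup.isReduced_toWord, FreeGroup.isReduced_toWord, H⟩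

lemma head_inv (g : F) : (g⁻¹).toWord.head? = g.toWord.getLast?.map (fun e => (e.1, !e.2)) := by
  rw [FreeGroup.toWord_inv, FreeGroup.invRev, List.head?_reverse, List.getLast?_map]

/-- A conjugate of a generator. -/
def el (p : F × ℕ) : F := p.1 * x p.2 * p.1⁻¹

/-- The word does not end with the generator or its inverse. -/
def NoEnd (p : F × ℕ) : Prop := ∀ e ∈ p.1.toWord.getLast?, e.1 ≠ p.2

/-- No Hurwitz move reduces the length. -/
def Rl (p q : F × ℕ) : Prop :=
  q.1.norm ≤ (el p * q.1).norm ∧ p.1.norm ≤ ((el q)⁻¹ * p.1).norm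

lemma norm_cancel {w : F} {j : ℕ} {ε : Bool} (h : w.toWord.head? = some (j, ε)) :
    (FreeGroup.mk [(j, !ε)] * w).norm < w.norm := by
  obtain ⟨t, ht⟩ : ∃ t, w.toWord = (j, ε) :: t := by
    cases hw : w.toWord with
    | nil => rw [hw] at h; simp at h
    | cons a t => rw [hw] at h; simp at h; exact ⟨t, by rw [h]⟩
  have hw : w = FreeGroup.mk ((j, ε) :: t) := by rw [← ht, FreeGroup.mk_toWord]
  have h2 : FreeGroup.mk [(j, !ε)] * w = FreeGroup.mk t := by
    rw [hw, FreeGroup.mul_mk]
    apply Quot.sound
    cases ε
    · exact FreeGroup.Red.Step.cons_not_rev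
    · exact FreeGroup.Red.Step.cons_not_rev
  rw [h2]
  have h3 : (FreeGroup.mk t : F).norm ≤ t.length := FreeGroup.norm_mk_le
  have h4 : w.norm = t.length + 1 := by
    unfold FreeGroup.norm
    rw [ht, List.length_cons]
  omega

lemma lemA {a b : F} {j : ℕ} (hn : NoEnd (a, j)) (hh : (a⁻¹ * b).toWord.head? = some (j, false)) :
    (el (a, j) * b).norm < b.norm := by
  have h1 : b.toWord = a.toWord ++ (a⁻¹ * b).toWord := by
    conv_lhs => rw [show b = a * (a⁻¹ * b) by group]
    apply toWord_mul_of
    intro p hp q hq he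
    rw [hh] at hq
    simp only [Option.mem_def, Option.some.injEq] at hq
    subst hq
    exact absurd he (hn p hp)
  have h2 : el (a, j) * b = a * (FreeGroup.mk [(j, !false)] * (a⁻¹ * b)) := by
    have : (FreeGroup.mk [(j, !false)] : F) = x j := rfl
    rw [this]; unfold el; group
  have h3 := FreeGroup.norm_mul_le a (FreeGroup.mk [(j, !false)] * (a⁻¹ * b))
  have h4 := norm_cancel hh
  have h5 : b.norm = a.norm + (a⁻¹ * b).norm := by
    unfold FreeGroup.norm
    rw [h1, List.length_append]
  rw [h2]; omega

lemma lemB {a b : F} {j : ℕ} (hn : NoEnd (b, j)) (hh : (a⁻¹ * b).toWord.getLast? = some (j, false)) :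
    ((el (b, j))⁻¹ * a).norm < a.norm := by
  have hh' : (b⁻¹ * a).toWord.head? = some (j, true) := by
    rw [show b⁻¹ * a = (a⁻¹ * b)⁻¹ by group, head_inv, hh]; rfl
  have h1 : a.toWord = b.toWord ++ (b⁻¹ * a).toWord := by
    conv_lhs => rw [show a = b * (b⁻¹ * a) by group]
    apply toWord_mul_of
    intro p hp q hq he
    rw [hh'] at hq
    simp only [Option.mem_def, Option.some.injEq] at hq
    subst hq
    exact absurd he (hn p hp)
  have h2 : (el (b, j))⁻¹ * a = b * (FreeGroup.mk [(j, !true)] * (b⁻¹ * a)) := by
    have : (FreeGroup.mk [(j, !true)] : F) = (x j)⁻¹ := rfl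
    rw [this]; unfold el; group
  have h3 := FreeGroup.norm_mul_le b (FreeGroup.mk [(j, !true)] * (b⁻¹ * a))
  have h4 := norm_cancel hh'
  have h5 : a.norm = b.norm + (b⁻¹ * a).norm := by
    unfold FreeGroup.norm
    rw [h1, List.length_append]
  rw [h2]; omega

/-- The total length of the connecting words. -/
def W : F → List (F × ℕ) → ℕ
  | a, [] => a.norm
  | a, p :: l => (a⁻¹ * p.1).norm + W p.1 l

/-- The word of `x_j g`. -/
lemma word_x_mul {j : ℕ} {g : F} (h : g.toWord.head? ≠ some (j, false)) :
    (x j * g).toWord = (j, true) :: g.toWord := by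
  have h1 := toWord_mul_of (g := x j) (h := g) (by
    intro p hp q hq he
    rw [FreeGroup.toWord_of] at hp
    simp only [List.getLast?_singleton, Option.mem_def, Option.some.injEq] at hp
    subst hp
    rcases q with ⟨q1, q2⟩
    simp only at he
    subst he
    cases q2
    · exact absurd hq h
    · rfl)
  rw [h1, FreeGroup.toWord_of]
  rfl

/-- The word of `w x_j g`. -/
lemma word_mul_x_mul {j : ℕ} {w g : F} (h : g.toWord.head? ≠ some (j, false))
    (hw : w.toWord.getLast? ≠ some (j, false)) :
    (w * (x j * g)).toWord = w.toWord ++ (j, true) :: g.toWord := by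
  rw [toWord_mul_of, word_x_mul h]
  intro p hp q hq he
  rw [word_x_mul h] at hq
  simp only [List.head?_cons, Option.mem_def, Option.some.injEq] at hq
  subst hq
  rcases p with ⟨p1, p2⟩
  simp only at he
  subst he
  cases p2
  · exact absurd hp hw
  · rfl

lemma key_word : ∀ (l : List (F × ℕ)) (a : F) (j : ℕ), NoEnd (a, j) → (∀ p ∈ l, NoEnd p) →
    List.IsChain Rl ((a, j) :: l) →
    (a⁻¹ * (l.map el).prod).toWord.head? ≠ some (j, false) ∧
      (a⁻¹ * (l.map el).prod).norm = W a l + l.length := by
  intro l
  induction l with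
  | nil =>
    intro a j hn _ _
    rw [List.map_nil, List.prod_nil, mul_one]
    refine ⟨?_, by rw [FreeGroup.norm_inv_eq]; rfl⟩
    rw [head_inv]
    intro h
    cases hl : a.toWord.getLast? with
    | none => rw [hl] at h; simp at h
    | some e =>
      rw [hl] at h
      simp only [Option.map_some, Option.some.injEq, Prod.mk.injEq] at h
      exact hn e (by rw [hl]; rfl) h.1
  | cons p l ih =>
    intro a j hn hall hch
    obtain ⟨b, j'⟩ := p
    rw [List.isChain_cons_cons] at hch
    obtain ⟨hR, hch'⟩ := hch
    have hnb : NoEnd (b, j') := hall _ (List.mem_cons_self)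
    obtain ⟨ih1, ih2⟩ := ih b j' hnb (fun p hp => hall p (List.mem_cons_of_mem _ hp)) hch'
    have e1 : a⁻¹ * (((b, j') :: l).map el).prod = (a⁻¹ * b) * (x j' * (b⁻¹ * (l.map el).prod)) := by
      rw [List.map_cons, List.prod_cons]; unfold el; group
    have hlast : (a⁻¹ * b).toWord.getLast? ≠ some (j', false) := by
      intro h
      have := lemB hnb h
      have h2 : a.norm ≤ ((el (b, j'))⁻¹ * a).norm := hR.2
      omega
    have hw := word_mul_x_mul ih1 hlast
    constructor
    · rw [e1, hw]
      cases hc : (a⁻¹ * b).toWord with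
      | nil => simp
      | cons e t =>
        intro h
        simp only [List.cons_append, List.head?_cons] at h
        have hh : (a⁻¹ * b).toWord.head? = some (j, false) := by rw [hc, List.head?_cons, h]
        have := lemA hn hh
        have h2 : b.norm ≤ (el (a, j) * b).norm := hR.1
        omega
    · rw [e1]
      have h3 : ((a⁻¹ * b) * (x j' * (b⁻¹ * (l.map el).prod))).norm =
          (a⁻¹ * b).norm + (1 + (b⁻¹ * (l.map el).prod).norm) := by
        unfold FreeGroup.norm
        rw [hw, List.length_append, List.length_cons]; omega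
      rw [h3, ih2]
      show _ = (a⁻¹ * b).norm + W b l + (l.length + 1)
      omega

lemma norm_prod (l : List (F × ℕ)) (hall : ∀ p ∈ l, NoEnd p) (hch : List.IsChain Rl l) :
    (l.map el).prod.norm = W 1 l + l.length := by
  cases l with
  | nil => simp [W]
  | cons p l =>
    obtain ⟨b, j'⟩ := p
    have hnb : NoEnd (b, j') := hall _ (List.mem_cons_self)
    obtain ⟨ih1, ih2⟩ := key_word l b j' hnb (fun p hp => hall p (List.mem_cons_of_mem _ hp)) hch
    have e1 : (((b, j') :: l).map el).prod = b * (x j' * (b⁻¹ * (l.map el).prod)) := by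
      rw [List.map_cons, List.prod_cons]; unfold el; group
    have hlast : b.toWord.getLast? ≠ some (j', false) := by
      intro h
      exact hnb (j', false) (by rw [h]; rfl) rfl
    have hw := word_mul_x_mul ih1 hlast
    rw [e1]
    have h3 : (b * (x j' * (b⁻¹ * (l.map el).prod))).norm =
        b.norm + (1 + (b⁻¹ * (l.map el).prod).norm) := by
      unfold FreeGroup.norm
      rw [hw, List.length_append, List.length_cons]; omega
    rw [h3, ih2]
    show _ = ((1 : F)⁻¹ * b).norm + W b l + (l.length + 1)
    rw [inv_one, one_mul]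
    omega

lemma W_zero (l : List (F × ℕ)) (h : W 1 l = 0) : ∀ p ∈ l, p.1 = 1 := by
  induction l with
  | nil => intro p hp; simp at hp
  | cons q l ih =>
    have h' : ((1 : F)⁻¹ * q.1).norm + W q.1 l = 0 := h
    rw [inv_one, one_mul] at h'
    have h1 : q.1 = 1 := FreeGroup.norm_eq_zero.1 (by omega)
    have h2 : W 1 l = 0 := by rw [← h1]; omega
    intro p hp
    rcases List.mem_cons.1 hp with rfl | hp
    · exact h1
    · exact ih h2 p hp

/-! ### Positive words -/

lemma prod_x (js : List ℕ) : (js.map x).prod = FreeGroup.mk (js.map (fun j => (j, true))) := by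
  induction js with
  | nil => rfl
  | cons a t ih =>
    rw [List.map_cons, List.prod_cons, ih, List.map_cons]
    show FreeGroup.mk [(a, true)] * _ = _
    rw [FreeGroup.mul_mk]; rfl

lemma pos_reduced (js : List ℕ) : FreeGroup.IsReduced (js.map (fun j => (j, true))) := by
  unfold FreeGroup.IsReduced
  rw [List.isChain_map]
  induction js with
  | nil => exact List.IsChain.nil
  | cons a t ih =>
    cases t with
    | nil => exact List.IsChain.singleton _
    | cons b t => exact List.IsChain.cons_cons (fun _ => rfl) ih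

lemma toWord_prod_x (js : List ℕ) : (js.map x).prod.toWord = js.map (fun j => (j, true)) := by
  rw [prod_x, FreeGroup.toWord_mk]
  exact (pos_reduced js).reduce_eq

lemma prod_x_inj {js ks : List ℕ} (h : (js.map x).prod = (ks.map x).prod) : js = ks := by
  have h1 := congrArg FreeGroup.toWord h
  rw [toWord_prod_x, toWord_prod_x] at h1
  exact List.map_injective_iff.2 (fun a b hab => (Prod.mk.inj hab).1) h1

lemma norm_C (n : ℕ) : (C n).norm = n := by
  unfold C FreeGroup.norm
  rw [toWord_prod_x, List.length_map, List.length_range]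

/-- The braids with `n` strands. -/
def Br (n : ℕ) : Subgroup (MulAut F) := Subgroup.closure {g | ∃ i, i + 1 < n ∧ g = sg i}

lemma sg_mem {n i : ℕ} (h : i + 1 < n) : sg i ∈ Br n := Subgroup.subset_closure ⟨i, h, rfl⟩

/-- Splitting a map over `range` at `i`. -/
lemma split_range {β : Type} (g : ℕ → β) (i m : ℕ) : (List.range (i + (m + 2))).map g =
    (List.range i).map g ++ g i :: g (i + 1) :: (List.range m).map (fun t => g (i + 2 + t)) := by
  rw [List.range_add, List.map_append, List.map_map]
  congr 1
  rw [show m + 2 = 2 + m by ring, List.range_add, List.map_append, List.map_map]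
  simp only [show List.range 2 = [0, 1] from rfl, List.map_cons, List.map_nil, List.cons_append,
    List.nil_append, Function.comp, add_zero]
  congr 1
  congr 1
  apply List.map_congr_left
  intro t _
  show g (i + (2 + t)) = g (i + 2 + t)
  rw [add_assoc]

/-- Changing two neighbours. -/
lemma transport {n : ℕ} {l₁ l₂ : List (F × ℕ)} {p q p' q' : F × ℕ} {β β' : MulAut F}
    (hn : (l₁ ++ p :: q :: l₂).length = n)
    (h' : (l₁ ++ p' :: q' :: l₂).map el = (List.range n).map (fun i => β' (x i)))
    (hp : β' (x l₁.length) = el p' → β' (x (l₁.length + 1)) = el q' → β (x l₁.length) = el p)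
    (hq : β' (x l₁.length) = el p' → β' (x (l₁.length + 1)) = el q' →
      β (x (l₁.length + 1)) = el q)
    (ho : ∀ j, j ≠ l₁.length → j ≠ l₁.length + 1 → β (x j) = β' (x j)) :
    (l₁ ++ p :: q :: l₂).map el = (List.range n).map (fun i => β (x i)) := by
  have hn' : n = l₁.length + (l₂.length + 2) := by
    rw [← hn]; simp
  rw [hn', split_range] at h' ⊢
  rw [List.map_append, List.map_cons, List.map_cons] at h' ⊢
  obtain ⟨a1, a2⟩ := List.append_inj h' (by simp)
  rw [List.cons.injEq, List.cons.injEq] at a2
  obtain ⟨a3, a4, a5⟩ := a2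
  rw [a1, a5, ← hp a3.symm a4.symm, ← hq a3.symm a4.symm]
  congr 1
  · apply List.map_congr_left
    intro t ht
    rw [List.mem_range] at ht
    exact (ho t (by omega) (by omega)).symm
  · congr 2
    apply List.map_congr_left
    intro t _
    exact (ho _ (by omega) (by omega)).symm

/-- Artin's theorem. -/
theorem hurwitz (n : ℕ) : ∀ (N : ℕ) (l : List (F × ℕ)), (l.map (fun p => p.1.norm)).sum = N →
    l.length = n → (l.map el).prod = C n →
    ∃ β ∈ Br n, l.map el = (List.range n).map (fun i => β (x i)) := by
  intro N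
  induction N using Nat.strong_induction_on with
  | _ N ih =>
  intro l hN hlen hprod
  by_cases h1 : ∀ p ∈ l, NoEnd p
  swap
  · -- shorten a conjugating element
    push Not at h1
    obtain ⟨p, hp, hpe⟩ := h1
    unfold NoEnd at hpe
    push Not at hpe
    obtain ⟨e, he, hej⟩ := hpe
    obtain ⟨l₁, l₂, rfl⟩ := List.append_of_mem hp
    obtain ⟨a, j⟩ := p
    simp only at he hej
    obtain ⟨w, hw⟩ : ∃ w, a.toWord = w ++ [e] := by
      refine ⟨a.toWord.dropLast, ?_⟩
      rw [List.dropLast_append_getLast?]
      exact he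
    have ha : a = FreeGroup.mk w * FreeGroup.mk [e] := by
      rw [FreeGroup.mul_mk, ← hw, FreeGroup.mk_toWord]
    have hel : el (FreeGroup.mk w, j) = el (a, j) := by
      obtain ⟨e1, e2⟩ := e
      simp only at hej
      subst hej
      rw [ha]
      unfold el
      cases e2
      · have : (FreeGroup.mk [(e1, false)] : F) = (x e1)⁻¹ := rfl
        rw [this]; group
      · have : (FreeGroup.mk [(e1, true)] : F) = x e1 := rfl
        rw [this]; group
    have hlt : (FreeGroup.mk w : F).norm < a.norm := by
      have h3 : (FreeGroup.mk w : F).norm ≤ w.length := FreeGroup.norm_mk_le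
      have h4 : a.norm = w.length + 1 := by
        unfold FreeGroup.norm
        rw [hw, List.length_append]; rfl
      omega
    have hsum : ((l₁ ++ (FreeGroup.mk w, j) :: l₂).map (fun p => p.1.norm)).sum < N := by
      rw [← hN]
      simp only [List.map_append, List.map_cons, List.sum_append, List.sum_cons]
      omega
    have hmap : (l₁ ++ (FreeGroup.mk w, j) :: l₂).map el = (l₁ ++ (a, j) :: l₂).map el := by
      simp only [List.map_append, List.map_cons, hel]
    obtain ⟨β, hβ, hβ2⟩ := ih _ hsum (l₁ ++ (FreeGroup.mk w, j) :: l₂) rfl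
      (by rw [← hlen]; simp) (by rw [hmap]; exact hprod)
    exact ⟨β, hβ, by rw [← hmap]; exact hβ2⟩
  · by_cases h2 : List.IsChain Rl l
    · -- no reduction possible
      have h3 := norm_prod l h1 h2
      rw [hprod, norm_C, hlen] at h3
      have h4 := W_zero l (by omega)
      have h5 : l.map el = (l.map Prod.snd).map x := by
        rw [List.map_map]
        apply List.map_congr_left
        intro p hp
        show p.1 * x p.2 * p.1⁻¹ = x p.2
        rw [h4 p hp]; simp
      rw [h5] at hprod
      have h6 := prod_x_inj hprod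
      refine ⟨1, Subgroup.one_mem _, ?_⟩
      rw [h5, h6]
      rfl
    · rw [List.isChain_iff_forall_rel_of_append_cons_cons] at h2
      push Not at h2
      obtain ⟨p, q, l₁, l₂, rfl, hR⟩ := h2
      unfold Rl at hR
      have hi : l₁.length + 1 < n := by
        rw [← hlen]; simp
      by_cases h3 : q.1.norm ≤ (el p * q.1).norm
      · -- second move
        have h4 : ((el q)⁻¹ * p.1).norm < p.1.norm := by
          by_contra h5
          exact hR ⟨h3, by omega⟩
        have hel : el ((el q)⁻¹ * p.1, p.2) = (el q)⁻¹ * el p * el q := by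
          unfold el; group
        have hsum : ((l₁ ++ q :: ((el q)⁻¹ * p.1, p.2) :: l₂).map (fun p => p.1.norm)).sum < N := by
          rw [← hN]
          simp only [List.map_append, List.map_cons, List.sum_append, List.sum_cons]
          omega
        obtain ⟨β, hβ, hβ2⟩ := ih _ hsum (l₁ ++ q :: ((el q)⁻¹ * p.1, p.2) :: l₂) rfl
          (by rw [← hlen]; simp) (by
            rw [← hprod]
            simp only [List.map_append, List.map_cons, List.prod_append, List.prod_cons, hel]
            group)
        refine ⟨β * (sg l₁.length)⁻¹, Subgroup.mul_mem _ hβ (Subgroup.inv_mem _ (sg_mem hi)), ?_⟩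
        refine transport hlen hβ2 ?_ ?_ ?_
        · intro e1 e2
          rw [MulAut.mul_apply, sgi_x, bw_self, map_mul, map_mul, map_inv, e1, e2, hel]
          group
        · intro e1 e2
          rw [MulAut.mul_apply, sgi_x, bw_succ, e1]
        · intro j hj1 hj2
          rw [MulAut.mul_apply, sgi_x, bw_ne hj1 hj2]
      · -- first move
        have hel : el (el p * q.1, q.2) = el p * el q * (el p)⁻¹ := by
          unfold el; group
        have hsum : ((l₁ ++ (el p * q.1, q.2) :: p :: l₂).map (fun p => p.1.norm)).sum < N := by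
          rw [← hN]
          simp only [List.map_append, List.map_cons, List.sum_append, List.sum_cons]
          omega
        obtain ⟨β, hβ, hβ2⟩ := ih _ hsum (l₁ ++ (el p * q.1, q.2) :: p :: l₂) rfl
          (by rw [← hlen]; simp) (by
            rw [← hprod]
            simp only [List.map_append, List.map_cons, List.prod_append, List.prod_cons, hel]
            group)
        refine ⟨β * sg l₁.length, Subgroup.mul_mem _ hβ (sg_mem hi), ?_⟩
        refine transport hlen hβ2 ?_ ?_ ?_
        · intro e1 e2
          rw [MulAut.mul_apply, sg_x, fw_self, e2]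
        · intro e1 e2
          rw [MulAut.mul_apply, sg_x, fw_succ, map_mul, map_mul, map_inv, e1, e2, hel]
          group
        · intro j hj1 hj2
          rw [MulAut.mul_apply, sg_x, fw_ne hj1 hj2]

end Unf.H65
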