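import Pool.Agent.Helper65_UNF.Hur

set_option autoImplicit false

/-!
# The wreath product argument (squad UNF, module AFA)
-/

namespace Unf.H65

/-- Shift of the generators. -/
def io : F →* F := FreeGroup.lift (fun j => x (j + 1))

/-- The retraction which kills `x 0` and shifts back. -/
def re : F →* F := FreeGroup.lift (fun j => if j = 0 then 1 else x (j - 1))

/-- Exponent sum. -/
def ex : F →* Multiplicative ℤ := FreeGroup.lift (fun _ => Multiplicative.ofAdd 1)

lemma io_x (j : ℕ) : io (x j) = x (j + 1) := by unfold io; rw [FreeGroup.lift_apply_of]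
lemma re_zero : re (x 0) = 1 := by unfold re; rw [FreeGroup.lift_apply_of]; simp
lemma re_succ (j : ℕ) : re (x (j + 1)) = x j := by
  unfold re; rw [FreeGroup.lift_apply_of]; simp
lemma ex_x (j : ℕ) : ex (x j) = Multiplicative.ofAdd 1 := by
  unfold ex; rw [FreeGroup.lift_apply_of]

lemma re_io (g : F) : re (io g) = g := by
  have : re.comp io = MonoidHom.id F := by
    apply FreeGroup.ext_hom
    intro j
    rw [MonoidHom.comp_apply, io_x, re_succ]; rfl
  exact congrArg (fun φ : F →* F => φ g) this

lemma ex_el (p : F × ℕ) : ex (el p) = Multiplicative.ofAdd 1 := by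
  unfold el
  rw [map_mul, map_mul, map_inv, ex_x, mul_comm (ex p.1), mul_assoc, mul_inv_cancel, mul_one]

lemma ex_prod (l : List (F × ℕ)) : ex (l.map el).prod = Multiplicative.ofAdd (l.length : ℤ) := by
  induction l with
  | nil => simp
  | cons p l ih =>
    rw [List.map_cons, List.prod_cons, map_mul, ih, ex_el, List.length_cons, ← ofAdd_add]
    congr 1
    push_cast
    ring

lemma ex_C (n : ℕ) : ex (C n) = Multiplicative.ofAdd (n : ℤ) := by
  induction n with
  | zero => rw [C_zero]; simp
  | succ n ih =>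
    rw [C_succ, map_mul, ih, ex_x, ← ofAdd_add]
    congr 1

/-- The shift on sequences. -/
def shA (m : ℤ) : MulAut (ℤ → F) where
  toFun g j := g (j - m)
  invFun g j := g (j + m)
  left_inv g := by funext j; simp
  right_inv g := by funext j; simp
  map_mul' g h := rfl

/-- The action of the integers on sequences. -/
def shH : Multiplicative ℤ →* MulAut (ℤ → F) where
  toFun m := shA m.toAdd
  map_one' := by
    ext g j
    show g (j - 0) = g j
    rw [sub_zero]
  map_mul' a b := by
    ext g j
    show g (j - (a.toAdd + b.toAdd)) = g (j - a.toAdd - b.toAdd)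
    rw [sub_sub]

lemma shH_apply (m : Multiplicative ℤ) (g : ℤ → F) (j : ℤ) : shH m g j = g (j - m.toAdd) := rfl

/-- The wreath product. -/
abbrev Wr : Type := (ℤ → F) ⋊[shH] Multiplicative ℤ

/-- The homomorphism to the wreath product. -/
def ph : F →* Wr := FreeGroup.lift (fun j =>
  if j = 0 then SemidirectProduct.inr (Multiplicative.ofAdd 1)
  else SemidirectProduct.inl (Pi.mulSingle 0 (x (j - 1))))

lemma ph_zero : ph (x 0) = SemidirectProduct.inr (Multiplicative.ofAdd 1) := by
  unfold ph; rw [FreeGroup.lift_apply_of]; simp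

lemma ph_succ (j : ℕ) : ph (x (j + 1)) = SemidirectProduct.inl (Pi.mulSingle 0 (x j)) := by
  unfold ph; rw [FreeGroup.lift_apply_of]; simp

lemma ph_io (g : F) : ph (io g) = SemidirectProduct.inl (Pi.mulSingle 0 g) := by
  have : ph.comp io = (SemidirectProduct.inl (φ := shH)).comp
      (MonoidHom.mulSingle (fun _ : ℤ => F) 0) := by
    apply FreeGroup.ext_hom
    intro j
    rw [MonoidHom.comp_apply, io_x, ph_succ, MonoidHom.comp_apply]
    rfl
  exact congrArg (fun φ : F →* Wr => φ g) this

lemma shH_single (m : Multiplicative ℤ) (i : ℤ) (v : F) :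
    shH m (Pi.mulSingle i v) = Pi.mulSingle (i + m.toAdd) v := by
  funext j
  rw [shH_apply]
  by_cases h : j = i + m.toAdd
  · subst h
    rw [Pi.mulSingle_eq_same, add_sub_cancel_right, Pi.mulSingle_eq_same]
  · rw [Pi.mulSingle_eq_of_ne h, Pi.mulSingle_eq_of_ne]
    intro h'
    exact h (by omega)

/-- The image of a conjugate of a generator. -/
lemma ph_conj (g : F) (j : ℕ) : ∃ (m : ℤ) (p : F × ℕ),
    ph (g * x (j + 1) * g⁻¹) = SemidirectProduct.inl (Pi.mulSingle m (el p)) := by
  refine ⟨(ph g).right.toAdd, ((ph g).left (ph g).right.toAdd, j), ?_⟩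
  rw [map_mul, map_mul, map_inv, ph_succ]
  have h1 : ph g = SemidirectProduct.inl (ph g).left * SemidirectProduct.inr (ph g).right :=
    (SemidirectProduct.inl_left_mul_inr_right _).symm
  set A := (ph g).left with hA
  set m := (ph g).right with hm
  rw [h1, mul_inv_rev, ← map_inv, ← map_inv]
  have h2 : SemidirectProduct.inl A * SemidirectProduct.inr m *
      SemidirectProduct.inl (Pi.mulSingle 0 (x j)) *
      (SemidirectProduct.inr m⁻¹ * SemidirectProduct.inl A⁻¹) =
      SemidirectProduct.inl (φ := shH) (A * shH m (Pi.mulSingle 0 (x j)) * A⁻¹) := by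
    rw [map_mul, map_mul, SemidirectProduct.inl_aut, map_inv]
    group
  rw [h2, shH_single, zero_add]
  congr 1
  funext i
  show A i * (Pi.mulSingle m.toAdd (x j) : ℤ → F) i * (A i)⁻¹ = _
  by_cases h : i = m.toAdd
  · subst h
    rw [Pi.mulSingle_eq_same, Pi.mulSingle_eq_same]; rfl
  · rw [Pi.mulSingle_eq_of_ne h, Pi.mulSingle_eq_of_ne h]; simp

lemma ph_list (l : List F) (hl : ∀ u ∈ l, ∃ g j, u = g * x (j + 1) * g⁻¹) :
    ∃ L : List (ℤ × (F × ℕ)), ph l.prod =
      SemidirectProduct.inl (L.map (fun t => (Pi.mulSingle t.1 (el t.2) : ℤ → F))).prod := by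
  induction l with
  | nil => exact ⟨[], by simp⟩
  | cons u l ih =>
    obtain ⟨L, hL⟩ := ih (fun v hv => hl v (List.mem_cons_of_mem _ hv))
    obtain ⟨g, j, rfl⟩ := hl u List.mem_cons_self
    obtain ⟨m, p, hp⟩ := ph_conj g j
    refine ⟨(m, p) :: L, ?_⟩
    rw [List.prod_cons, map_mul, hL, hp, List.map_cons, List.prod_cons, map_mul]

lemma prod_eval (L : List (ℤ × (F × ℕ))) (m : ℤ) :
    (L.map (fun t => (Pi.mulSingle t.1 (el t.2) : ℤ → F))).prod m =
      (((L.filter (fun t => t.1 = m)).map Prod.snd).map el).prod := by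
  induction L with
  | nil => rfl
  | cons t L ih =>
    rw [List.map_cons, List.prod_cons, Pi.mul_apply, ih]
    by_cases h : t.1 = m
    · rw [List.filter_cons_of_pos (by simpa using h), List.map_cons, List.map_cons, List.prod_cons, ← h,
        Pi.mulSingle_eq_same]
    · rw [List.filter_cons_of_neg (by simpa using h), Pi.mulSingle_eq_of_ne (Ne.symm h), one_mul]

/-- The wreath product argument. -/
theorem wreath (n : ℕ) (f : F) (l : List F) (hl : ∀ u ∈ l, ∃ g j, u = g * x (j + 1) * g⁻¹)
    (hprod : l.prod = (io f)⁻¹ * (x 0)⁻¹ * io f * x 0 * io (C n)) :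
    ∃ β ∈ Br n, ∃ k ≤ n, f = β (C k) ∧ ex f = Multiplicative.ofAdd (k : ℤ) := by
  obtain ⟨L, hL⟩ := ph_list l hl
  have h1 : ph ((io f)⁻¹ * (x 0)⁻¹ * io f * x 0 * io (C n)) =
      SemidirectProduct.inl ((Pi.mulSingle 0 f)⁻¹ * (Pi.mulSingle (-1) f : ℤ → F) *
        Pi.mulSingle 0 (C n)) := by
    have h2 : (Pi.mulSingle (-1) f : ℤ → F) = shH (Multiplicative.ofAdd 1)⁻¹ (Pi.mulSingle 0 f) := by
      rw [shH_single]; rfl
    rw [h2, map_mul, map_mul, map_mul, map_mul, map_inv, map_inv, ph_io, ph_zero, ph_io, map_mul,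
      map_mul, SemidirectProduct.inl_aut]
    simp only [map_inv, inv_inv]
    group
  rw [hprod, h1] at hL
  have hL' := SemidirectProduct.inl_injective hL
  have ea := congrFun hL' (-1)
  have e0 := congrFun hL' 0
  rw [prod_eval] at ea e0
  have ea' : ((((L.filter (fun t => t.1 = -1)).map Prod.snd).map el).prod) = f := by
    rw [← ea]
    show ((Pi.mulSingle 0 f : ℤ → F) (-1))⁻¹ * (Pi.mulSingle (-1) f : ℤ → F) (-1) *
      (Pi.mulSingle 0 (C n) : ℤ → F) (-1) = f
    rw [Pi.mulSingle_eq_of_ne (by decide), Pi.mulSingle_eq_same, Pi.mulSingle_eq_of_ne (by decide)]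
    simp
  have e0' : ((((L.filter (fun t => t.1 = 0)).map Prod.snd).map el).prod) = f⁻¹ * C n := by
    rw [← e0]
    show ((Pi.mulSingle 0 f : ℤ → F) 0)⁻¹ * (Pi.mulSingle (-1) f : ℤ → F) 0 *
      (Pi.mulSingle 0 (C n) : ℤ → F) 0 = _
    rw [Pi.mulSingle_eq_same, Pi.mulSingle_eq_same, Pi.mulSingle_eq_of_ne (by decide)]
    simp
  set A := (L.filter (fun t => t.1 = -1)).map Prod.snd with hA
  set B := (L.filter (fun t => t.1 = 0)).map Prod.snd with hB
  have hp : ((A ++ B).map el).prod = C n := by
    rw [List.map_append, List.prod_append, ea', e0']; group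
  have hlen : (A ++ B).length = n := by
    have h3 := ex_prod (A ++ B)
    rw [hp, ex_C] at h3
    have h4 := Multiplicative.ofAdd.injective h3
    exact_mod_cast h4.symm
  obtain ⟨β, hβ, hβ2⟩ := hurwitz n _ (A ++ B) rfl hlen hp
  refine ⟨β, hβ, A.length, ?_, ?_, ?_⟩
  · rw [← hlen, List.length_append]; omega
  · have h5 := congrArg (List.take A.length) hβ2
    rw [List.map_append, ← List.map_take, List.take_range] at h5
    rw [show A.length = (A.map el).length by simp, List.take_left] at h5
    have h6 : min (A.map el).length n = A.length := by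
      rw [← hlen, List.length_append, List.length_map]; omega
    rw [h6] at h5
    rw [← ea', h5]
    unfold C
    rw [map_list_prod, List.map_map]
    rfl
  · rw [← ea', ex_prod]

end Unf.H65
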